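import Mathlib

/-!
# Forcing, points of `ω*` and nowhere dense P-sets in a forcing extension, random forcing

A sentence of the forcing language of a preordered set `P` of conditions is represented by the
set of the conditions which force it. Negation, conjunction and universal quantification are the
primitive connectives, with their usual forcing clauses; the other connectives are defined from
them classically.

A name for a subset of `ω` is a map sending `n : ℕ` to the set of the conditions attached to `n`
(every subset of `ω` of the extension has such a name). A name for a family of subsets of `ω` is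
a map sending a name for a subset of `ω` to the set of the conditions attached to it.
-/

set_option autoImplicit false

namespace Pool.Agent.TH773.PSet

universe u v

section Forcing

variable {P : Type u} [Preorder P]

/-- `p` forces `not φ` iff no `q ≤ p` forces `φ`. -/
def fnot (φ : Set P) : Set P := {p | ∀ q ≤ p, q ∉ φ}

/-- `p` forces `φ and ψ` iff it forces both. -/
def fand (φ ψ : Set P) : Set P := {p | p ∈ φ ∧ p ∈ ψ}

/-- `p` forces `for all i, φ i` iff it forces every `φ i`. -/
def fall {ι : Sort v} (φ : ι → Set P) : Set P := {p | ∀ i, p ∈ φ i}

/-- `φ implies ψ` is `not (φ and not ψ)`. -/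
def fimp (φ ψ : Set P) : Set P := fnot (fand φ (fnot ψ))

/-- `φ or ψ` is `not (not φ and not ψ)`. -/
def disj (φ ψ : Set P) : Set P := fnot (fand (fnot φ) (fnot ψ))

/-- `there is i with φ i` is `not for all i, not φ i`. -/
def fex {ι : Sort v} (φ : ι → Set P) : Set P := fnot (fall fun i => fnot (φ i))

/-- `p` forces that the generic filter meets the set `N` of conditions:
the set of `r` lying below some member of `N` is dense below `p`. -/
def meets (N : Set P) : Set P := {p | ∀ q ≤ p, ∃ r ≤ q, ∃ s ∈ N, r ≤ s}

variable (P) in
/-- A name for a subset of `ω`. -/
abbrev RName : Type u := ℕ → Set P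

variable (P) in
/-- A name for a family of subsets of `ω`. -/
abbrev FName : Type u := RName P → Set P

/-- The subset `A` of `ω` is included in `B`. -/
def Sub (A B : RName P) : Set P := fall fun n => fimp (meets (A n)) (meets (B n))

/-- The subsets `A` and `B` of `ω` are equal. -/
def Same (A B : RName P) : Set P := fand (Sub A B) (Sub B A)

/-- All but finitely many elements of `A` belong to `B`. -/
def AlmostSub (A B : RName P) : Set P :=
  fex fun N : ℕ => fall fun n => fall fun _ : N ≤ n => fimp (meets (A n)) (meets (B n))

/-- `A` is an infinite subset of `ω`. -/
def Inf (A : RName P) : Set P :=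
  fall fun N : ℕ => fex fun n => fex fun _ : N ≤ n => meets (A n)

/-- `A` and `B` are disjoint. -/
def Disj (A B : RName P) : Set P := fall fun n => fnot (fand (meets (A n)) (meets (B n)))

/-- The union of `A` and `B` is `ω`. -/
def Cover (A B : RName P) : Set P := fall fun n => disj (meets (A n)) (meets (B n))

/-- The subset `A` of `ω` is a member of the family `F`. -/
def Mem (A : RName P) (F : FName P) : Set P :=
  fex fun B : RName P => fand (Same A B) (meets (F B))

/-- `F` is a filter on `ω` which contains all cofinite sets and no finite set. Such filters
correspond to the nonempty closed subsets of `ω*`. -/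
def IsFilter (F : FName P) : Set P :=
  fand (fex fun A : RName P => Mem A F)
    (fand (fall fun A : RName P => fimp (Mem A F) (Inf A))
      (fand
        (fall fun A : RName P => fall fun B : RName P =>
          fimp (fand (Mem A F) (AlmostSub A B)) (Mem B F))
        (fall fun A : RName P => fall fun B : RName P =>
          fimp (fand (Mem A F) (Mem B F))
            (fex fun C : RName P => fand (Mem C F) (fand (Sub C A) (Sub C B))))))

/-- `U` is a nonprincipal ultrafilter on `ω`, that is, a point of `ω*`. -/
def IsUltra (U : FName P) : Set P :=
  fand (IsFilter U)
    (fall fun A : RName P => fall fun B : RName P =>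
      fimp (Cover A B) (disj (Mem A U) (Mem B U)))

/-- For every sequence of members of `F` there is a member of `F` which is almost included in all
of them: the closed set which corresponds to `F` is a P-set. -/
def IsP (F : FName P) : Set P :=
  fall fun A : ℕ → RName P => fimp (fall fun n => Mem (A n) F)
    (fex fun B : RName P => fand (Mem B F) (fall fun n => AlmostSub B (A n)))

/-- Every infinite subset `A` of `ω` has an infinite subset `B` which is disjoint from some member
`C` of `F`: the closed set which corresponds to `F` is nowhere dense. -/
def IsNwd (F : FName P) : Set P :=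
  fall fun A : RName P => fimp (Inf A)
    (fex fun B : RName P => fex fun C : RName P =>
      fand (Inf B) (fand (Sub B A) (fand (Mem C F) (Disj B C))))

/-- The family `F` is included in `U`. If `U` is an ultrafilter, this says that the point `U`
belongs to the closed set which corresponds to `F`. -/
def Incl (F U : FName P) : Set P := fall fun A : RName P => fimp (Mem A F) (Mem A U)

variable (P) in
/-- Every point of `ω*` belongs to a nowhere dense P-set: `ω*` can be covered by nowhere dense
P-sets. -/
def Covered : Set P :=
  fall fun U : FName P => fimp (IsUltra U)
    (fex fun F : FName P => fand (IsFilter F) (fand (IsP F) (fand (IsNwd F) (Incl F U))))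

end Forcing

/-! ### Random forcing -/

section Random

open MeasureTheory

/-- The conditions of the measure algebra of `μ`: measurable sets of positive measure, preordered
by inclusion modulo null sets. -/
def Cond {Ω : Type u} [MeasurableSpace Ω] (μ : Measure Ω) : Type u :=
  {A : Set Ω // MeasurableSet A ∧ μ A ≠ 0}

instance {Ω : Type u} [MeasurableSpace Ω] (μ : Measure Ω) : Preorder (Cond μ) where
  le A B := μ (A.1 \ B.1) = 0
  le_refl A := by simp
  le_trans A B C h h' := by
    refine measure_mono_null ?_ (measure_union_null h h')
    intro x hx
    by_cases hB : x ∈ B.1
    · exact Or.inr ⟨hB, hx.2⟩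
    · exact Or.inl ⟨hx.1, hB⟩

/-- The fair coin. -/
noncomputable def coin : Measure Bool := (2 : ENNReal)⁻¹ • (Measure.dirac true + Measure.dirac false)

/-- The product measure on `2 ^ (I × ω)`. -/
noncomputable def coinProduct (I : Type u) : Measure (I × ℕ → Bool) :=
  Measure.infinitePi fun _ => coin

/-- The random forcing `𝔹(I)`, which adds `I` many random reals. -/
abbrev Random (I : Type u) : Type u := Cond (coinProduct I)

end Random

/-! ### The topological statement -/

section Topology

/-- The remainder `ω* = βω \ ω`: the space of the nonprincipal ultrafilters on `ℕ`. -/
abbrev OmegaStar : Type := {x : Ultrafilter ℕ // ∀ n, x ≠ pure n}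

/-- `F` is a closed set, and every intersection of countably many open sets which include `F`
has `F` in its interior. -/
def IsPSet {X : Type u} [TopologicalSpace X] (F : Set X) : Prop :=
  IsClosed F ∧ ∀ G : ℕ → Set X, (∀ n, IsOpen (G n) ∧ F ⊆ G n) → F ⊆ interior (⋂ n, G n)

/-- `ω*` can be covered by nowhere dense P-sets. -/
def OmegaStarCovered : Prop :=
  ∃ 𝓕 : Set (Set OmegaStar), (∀ F ∈ 𝓕, IsNowhereDense F ∧ IsPSet F) ∧ ⋃₀ 𝓕 = Set.univ

end Topology

end Pool.Agent.TH773.PSet
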