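import Mathlib
import Pool.Agent.TH773.PSet.Defs

/-!
# Names for subsets of `ω` in the measure algebra extension are random sets
-/

set_option autoImplicit false
set_option linter.unusedSectionVars false

namespace Pool.Agent.TH773.PSet

open MeasureTheory Set

universe u v

section Gen

variable {P : Type u} [Preorder P]

theorem mem_fex {ι : Sort v} {φ : ι → Set P} {p : P} :
    p ∈ fex φ ↔ ∀ q ≤ p, ∃ r ≤ q, ∃ i, r ∈ φ i := by
  simp only [fex, fnot, fall, Set.mem_ofPred_eq, not_forall, not_not]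
  constructor
  · intro h q hq
    obtain ⟨i, r, hr, h'⟩ := h q hq
    exact ⟨r, hr, i, h'⟩
  · intro h q hq
    obtain ⟨r, hr, i, h'⟩ := h q hq
    exact ⟨i, r, hr, h'⟩

theorem mem_fimp {φ ψ : Set P} {p : P} :
    p ∈ fimp φ ψ ↔ ∀ q ≤ p, q ∈ φ → ∃ r ≤ q, r ∈ ψ := by
  simp only [fimp, fnot, fand, Set.mem_ofPred_eq, not_and, not_forall, not_not]
  constructor
  · intro h q hq h'
    obtain ⟨r, hr, h''⟩ := h q hq h'
    exact ⟨r, hr, h''⟩
  · intro h q hq h'
    obtain ⟨r, hr, h''⟩ := h q hq h'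
    exact ⟨r, hr, h''⟩

theorem mem_fand {φ ψ : Set P} {p : P} : p ∈ fand φ ψ ↔ p ∈ φ ∧ p ∈ ψ := Iff.rfl

theorem mem_fall {ι : Sort v} {φ : ι → Set P} {p : P} : p ∈ fall φ ↔ ∀ i, p ∈ φ i := Iff.rfl

theorem mem_fnot {φ : Set P} {p : P} : p ∈ fnot φ ↔ ∀ q ≤ p, q ∉ φ := Iff.rfl

/-- The statement `φ` is preserved by passing to stronger conditions. -/
def Down (φ : Set P) : Prop := ∀ p ∈ φ, ∀ q ≤ p, q ∈ φ

/-- The statement `φ` is preserved by passing to stronger conditions, and it is forced by `p` if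
it is forced densely below `p`. -/
def Reg (φ : Set P) : Prop := Down φ ∧ ∀ p, (∀ q ≤ p, ∃ r ≤ q, r ∈ φ) → p ∈ φ

theorem down_fnot (φ : Set P) : Down (fnot φ) :=
  fun _ hp _ hq r hr => hp r (hr.trans hq)

theorem down_fand {φ ψ : Set P} (h : Down φ) (h' : Down ψ) : Down (fand φ ψ) :=
  fun _ hp _ hq => ⟨h _ hp.1 _ hq, h' _ hp.2 _ hq⟩

theorem down_fall {ι : Sort v} {φ : ι → Set P} (h : ∀ i, Down (φ i)) : Down (fall φ) :=
  fun _ hp _ hq i => h i _ (hp i) _ hq

theorem reg_fnot {φ : Set P} (h : Down φ) : Reg (fnot φ) := by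
  refine ⟨down_fnot φ, fun p hp q hq hφ => ?_⟩
  obtain ⟨r, hr, h'⟩ := hp q hq
  exact h' r le_rfl (h q hφ r hr)

theorem reg_fand {φ ψ : Set P} (h : Reg φ) (h' : Reg ψ) : Reg (fand φ ψ) := by
  refine ⟨down_fand h.1 h'.1, fun p hp => ⟨h.2 p fun q hq => ?_, h'.2 p fun q hq => ?_⟩⟩
  · obtain ⟨r, hr, h1⟩ := hp q hq
    exact ⟨r, hr, h1.1⟩
  · obtain ⟨r, hr, h1⟩ := hp q hq
    exact ⟨r, hr, h1.2⟩

theorem reg_fall {ι : Sort v} {φ : ι → Set P} (h : ∀ i, Reg (φ i)) : Reg (fall φ) := by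
  refine ⟨down_fall fun i => (h i).1, fun p hp i => (h i).2 p fun q hq => ?_⟩
  obtain ⟨r, hr, h1⟩ := hp q hq
  exact ⟨r, hr, h1 i⟩

theorem reg_fimp {φ ψ : Set P} (h : Down φ) : Reg (fimp φ ψ) :=
  reg_fnot (down_fand h (down_fnot _))

theorem reg_disj (φ ψ : Set P) : Reg (disj φ ψ) :=
  reg_fnot (down_fand (down_fnot _) (down_fnot _))

theorem reg_fex {ι : Sort v} (φ : ι → Set P) : Reg (fex φ) :=
  reg_fnot (down_fall fun _ => down_fnot _)

theorem reg_meets (N : Set P) : Reg (meets N) := by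
  refine ⟨fun p hp q hq r hr => hp r (hr.trans hq), fun p hp q hq => ?_⟩
  obtain ⟨r, hr, h⟩ := hp q hq
  obtain ⟨s, hs, t, ht, hst⟩ := h r le_rfl
  exact ⟨s, hs.trans hr, t, ht, hst⟩

theorem mem_fimp_reg {φ ψ : Set P} (h : Down φ) (h' : Reg ψ) {p : P} :
    p ∈ fimp φ ψ ↔ ∀ q ≤ p, q ∈ φ → q ∈ ψ := by
  rw [mem_fimp]
  refine ⟨fun hp q hq hφ => h'.2 q fun r hr => hp r (hr.trans hq) (h q hφ r hr),
    fun hp q hq hφ => ⟨q, le_rfl, hp q hq hφ⟩⟩

theorem mem_fex_of {ι : Sort v} {φ : ι → Set P} {p : P} (i : ι) (h : ∀ q ≤ p, q ∈ φ i) :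
    p ∈ fex φ :=
  mem_fex.2 fun q hq => ⟨q, le_rfl, i, h q hq⟩

theorem mem_disj {φ ψ : Set P} {p : P} :
    p ∈ disj φ ψ ↔ ∀ q ≤ p, ∃ r ≤ q, r ∈ φ ∨ r ∈ ψ := by
  simp only [disj, fnot, fand, Set.mem_ofPred_eq, not_and, not_forall, not_not]
  constructor
  · intro h q hq
    by_cases h1 : ∀ r ≤ q, r ∉ φ
    · obtain ⟨r, hr, h2⟩ := h q hq h1
      exact ⟨r, hr, Or.inr h2⟩
    · push Not at h1
      obtain ⟨r, hr, h2⟩ := h1
      exact ⟨r, hr, Or.inl h2⟩
  · intro h q hq h1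
    obtain ⟨r, hr, h2 | h2⟩ := h q hq
    · exact absurd h2 (h1 r hr)
    · exact ⟨r, hr, h2⟩

theorem reg_sub (A B : RName P) : Reg (Sub A B) :=
  reg_fall fun _ => reg_fimp (reg_meets _).1

theorem reg_same (A B : RName P) : Reg (Same A B) := reg_fand (reg_sub _ _) (reg_sub _ _)

theorem reg_almostSub (A B : RName P) : Reg (AlmostSub A B) := reg_fex _

theorem reg_inf (A : RName P) : Reg (Inf A) := reg_fall fun _ => reg_fex _

theorem reg_disjoint (A B : RName P) : Reg (Disj A B) :=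
  reg_fall fun _ => reg_fnot (down_fand (reg_meets _).1 (reg_meets _).1)

theorem reg_cover (A B : RName P) : Reg (Cover A B) := reg_fall fun _ => reg_disj _ _

theorem reg_mem (A : RName P) (F : FName P) : Reg (Mem A F) := reg_fex _

theorem reg_isFilter (F : FName P) : Reg (IsFilter F) :=
  reg_fand (reg_fex _) (reg_fand (reg_fall fun _ => reg_fimp (reg_mem _ _).1)
    (reg_fand (reg_fall fun _ => reg_fall fun _ =>
        reg_fimp (down_fand (reg_mem _ _).1 (reg_almostSub _ _).1))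
      (reg_fall fun _ => reg_fall fun _ => reg_fimp (down_fand (reg_mem _ _).1 (reg_mem _ _).1))))

theorem reg_isUltra (F : FName P) : Reg (IsUltra F) :=
  reg_fand (reg_isFilter F) (reg_fall fun _ => reg_fall fun _ => reg_fimp (reg_cover _ _).1)

theorem reg_isP (F : FName P) : Reg (IsP F) :=
  reg_fall fun _ => reg_fimp (down_fall fun _ => (reg_mem _ _).1)

theorem reg_isNwd (F : FName P) : Reg (IsNwd F) :=
  reg_fall fun _ => reg_fimp (reg_inf _).1

theorem reg_incl (F U : FName P) : Reg (Incl F U) :=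
  reg_fall fun _ => reg_fimp (reg_mem _ _).1

/-- Equal names: replacing a name by an equal one. -/
theorem same_symm {A B : RName P} {p : P} (h : p ∈ Same A B) : p ∈ Same B A := ⟨h.2, h.1⟩

theorem meets_of_same {A B : RName P} {p : P} (h : p ∈ Same A B) {q : P} (hq : q ≤ p) (n : ℕ) :
    q ∈ meets (A n) ↔ q ∈ meets (B n) :=
  ⟨fun h' => (mem_fimp_reg (reg_meets _).1 (reg_meets _)).1 (h.1 n) q hq h',
    fun h' => (mem_fimp_reg (reg_meets _).1 (reg_meets _)).1 (h.2 n) q hq h'⟩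

theorem same_of {A B : RName P} {p : P} (h : ∀ q ≤ p, ∀ n, q ∈ meets (A n) ↔ q ∈ meets (B n)) :
    p ∈ Same A B :=
  ⟨fun n => (mem_fimp_reg (reg_meets _).1 (reg_meets _)).2 fun q hq => (h q hq n).1,
    fun n => (mem_fimp_reg (reg_meets _).1 (reg_meets _)).2 fun q hq => (h q hq n).2⟩

theorem same_trans {A B C : RName P} {p : P} (h : p ∈ Same A B) (h' : p ∈ Same B C) :
    p ∈ Same A C :=
  same_of fun _ hq n => (meets_of_same h hq n).trans (meets_of_same h' hq n)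

theorem mem_of_same {A B : RName P} {F : FName P} {p : P} (h : p ∈ Same A B)
    (h' : p ∈ Mem A F) : p ∈ Mem B F := by
  refine mem_fex.2 fun q hq => ?_
  obtain ⟨r, hr, C, hC, hC'⟩ := mem_fex.1 h' q hq
  exact ⟨r, hr, C, same_trans ((reg_same _ _).1 _ (same_symm h) _ (hr.trans hq)) hC, hC'⟩

end Gen

section Meas

variable {Ω : Type u} [MeasurableSpace Ω] (μ : Measure Ω)

/-- The conditions which are almost everywhere included in `E`. -/
def AE (E : Set Ω) : Set (Cond μ) := {p | μ (p.1 \ E) = 0}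

variable {μ}

theorem mem_AE {E : Set Ω} {p : Cond μ} : p ∈ AE μ E ↔ μ (p.1 \ E) = 0 := Iff.rfl

theorem mem_AE_iff {E : Set Ω} {p : Cond μ} : p ∈ AE μ E ↔ ∀ᵐ x ∂μ, x ∈ p.1 → x ∈ E := by
  rw [mem_AE, ae_iff]
  have : p.1 \ E = {a | ¬ (a ∈ p.1 → a ∈ E)} := by
    ext x; simp
  rw [this]

theorem le_iff_AE {p q : Cond μ} : p ≤ q ↔ p ∈ AE μ q.1 := Iff.rfl

theorem down_AE (E : Set Ω) : Down (AE μ E) := by
  intro p hp q hq
  rw [le_iff_AE, mem_AE_iff] at hq
  rw [mem_AE_iff] at hp ⊢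
  filter_upwards [hp, hq] with x h1 h2 h3 using h1 (h2 h3)

/-- The condition `p ∩ E`. -/
def restr (p : Cond μ) (E : Set Ω) (hE : MeasurableSet E) (h : μ (p.1 ∩ E) ≠ 0) : Cond μ :=
  ⟨p.1 ∩ E, p.2.1.inter hE, h⟩

theorem restr_le (p : Cond μ) (E : Set Ω) (hE : MeasurableSet E) (h : μ (p.1 ∩ E) ≠ 0) :
    restr p E hE h ≤ p := by
  rw [le_iff_AE, mem_AE_iff]
  exact ae_of_all _ fun x hx => hx.1

theorem restr_mem (p : Cond μ) (E : Set Ω) (hE : MeasurableSet E) (h : μ (p.1 ∩ E) ≠ 0) :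
    restr p E hE h ∈ AE μ E := by
  rw [mem_AE_iff]
  exact ae_of_all _ fun x hx => hx.2

theorem not_AE_compl {p : Cond μ} {E : Set Ω} (h : p ∈ AE μ E) (h' : p ∈ AE μ Eᶜ) : False := by
  rw [mem_AE_iff] at h h'
  refine p.2.2 (measure_eq_zero_iff_ae_notMem.2 ?_)
  filter_upwards [h, h'] with x h1 h2 h3 using h2 h3 (h1 h3)

theorem fnot_AE {E : Set Ω} (hE : MeasurableSet E) : fnot (AE μ E) = AE μ Eᶜ := by
  ext p
  constructor
  · intro h
    rw [mem_AE]
    by_contra hne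
    rw [sdiff_compl] at hne
    exact h _ (restr_le p E hE hne) (restr_mem p E hE hne)
  · intro h q hq hq'
    exact not_AE_compl hq' (down_AE _ _ h _ hq)

theorem fand_AE (E E' : Set Ω) : fand (AE μ E) (AE μ E') = AE μ (E ∩ E') := by
  ext p
  simp only [mem_fand, mem_AE_iff]
  constructor
  · rintro ⟨h1, h2⟩
    filter_upwards [h1, h2] with x h3 h4 h5 using ⟨h3 h5, h4 h5⟩
  · intro h
    exact ⟨h.mono fun x h1 h2 => (h1 h2).1, h.mono fun x h1 h2 => (h1 h2).2⟩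

theorem fall_AE {ι : Sort v} [Countable ι] (E : ι → Set Ω) :
    fall (fun i => AE μ (E i)) = AE μ (⋂ i, E i) := by
  ext p
  simp only [mem_fall, mem_AE_iff, mem_iInter]
  constructor
  · intro h
    filter_upwards [ae_all_iff.2 h] with x h1 h2 i using h1 i h2
  · intro h i
    exact h.mono fun x h1 h2 => h1 h2 i

theorem fex_AE {ι : Sort v} [Countable ι] {E : ι → Set Ω} (hE : ∀ i, MeasurableSet (E i)) :
    fex (fun i => AE μ (E i)) = AE μ (⋃ i, E i) := by
  unfold fex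
  have : (fun i => fnot (AE μ (E i))) = fun i => AE μ (E i)ᶜ := by
    ext1 i; exact fnot_AE (hE i)
  rw [this, fall_AE, fnot_AE (MeasurableSet.iInter fun i => (hE i).compl), compl_iInter]
  simp

theorem fimp_AE {E E' : Set Ω} (hE : MeasurableSet E) (hE' : MeasurableSet E') :
    fimp (AE μ E) (AE μ E') = AE μ (Eᶜ ∪ E') := by
  unfold fimp
  rw [fnot_AE hE', fand_AE, fnot_AE (hE.inter hE'.compl), compl_inter, compl_compl]

theorem disj_AE {E E' : Set Ω} (hE : MeasurableSet E) (hE' : MeasurableSet E') :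
    disj (AE μ E) (AE μ E') = AE μ (E ∪ E') := by
  unfold disj
  rw [fnot_AE hE', fnot_AE hE, fand_AE, fnot_AE (hE.compl.inter hE'.compl), compl_inter,
    compl_compl, compl_compl]

theorem meets_AE {E : Set Ω} (hE : MeasurableSet E) : meets (AE μ E) = AE μ E := by
  ext p
  constructor
  · intro h
    rw [mem_AE]
    by_contra hne
    have hne' : μ (p.1 ∩ Eᶜ) ≠ 0 := hne
    obtain ⟨r, hr, s, hs, hrs⟩ := h _ (restr_le p Eᶜ hE.compl hne')
    exact not_AE_compl (down_AE _ _ hs _ hrs) (down_AE _ _ (restr_mem p Eᶜ hE.compl hne') _ hr)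
  · intro h q hq
    exact ⟨q, le_rfl, q, down_AE _ _ h _ hq, le_rfl⟩

variable [IsFiniteMeasure μ]

/-- The union of countably many members of `N` represents the statement `meets N`. -/
theorem exists_meets (N : Set (Cond μ)) :
    ∃ S : ℕ → Set Ω, (∀ j, S j = ∅ ∨ ∃ s ∈ N, S j = s.1) ∧ meets N = AE μ (⋃ j, S j) := by
  classical
  let V : Set (Set Ω) := {E | ∃ S : ℕ → Set Ω, (∀ j, S j = ∅ ∨ ∃ s ∈ N, S j = s.1) ∧
    E = ⋃ j, S j}
  have hne : (μ '' V).Nonempty := ⟨_, _, ⟨fun _ => ∅, fun _ => Or.inl rfl, rfl⟩, rfl⟩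
  obtain ⟨u, -, hu, hu'⟩ := exists_seq_tendsto_sSup hne (OrderTop.bddAbove _)
  choose E hE hEu using hu'
  choose S hS hES using hE
  let T : ℕ → Set Ω := fun n => S n.unpair.1 n.unpair.2
  have hT : ∀ j, T j = ∅ ∨ ∃ s ∈ N, T j = s.1 := fun j => hS _ _
  have hTE : ∀ n, E n ⊆ ⋃ j, T j := by
    intro n x hx
    rw [hES] at hx
    obtain ⟨j, hj⟩ := mem_iUnion.1 hx
    refine mem_iUnion.2 ⟨Nat.pair n j, ?_⟩
    simpa [T] using hj
  have hle : sSup (μ '' V) ≤ μ (⋃ j, T j) :=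
    le_of_tendsto' hu fun n => by
      rw [← hEu]
      exact measure_mono (hTE n)
  have hmeas : ∀ j, MeasurableSet (T j) := by
    intro j
    rcases hT j with h | ⟨s, -, h⟩
    · rw [h]; exact MeasurableSet.empty
    · rw [h]; exact s.2.1
  have hnull : ∀ s ∈ N, μ (s.1 \ ⋃ j, T j) = 0 := by
    intro s hs
    have h1 : μ (s.1 ∪ ⋃ j, T j) ≤ μ (⋃ j, T j) := by
      have hV : (s.1 ∪ ⋃ j, T j) ∈ V := by
        refine ⟨fun n => Nat.casesOn n s.1 T, ?_, ?_⟩
        · intro j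
          rcases j with _ | j
          · exact Or.inr ⟨s, hs, rfl⟩
          · exact hT j
        · ext x
          simp only [mem_union, mem_iUnion]
          constructor
          · rintro (h | ⟨j, h⟩)
            · exact ⟨0, h⟩
            · exact ⟨j + 1, h⟩
          · rintro ⟨_ | j, h⟩
            · exact Or.inl h
            · exact Or.inr ⟨j, h⟩
      exact le_trans (le_sSup (mem_image_of_mem μ hV)) hle
    have h2 : μ (s.1 \ ⋃ j, T j) + μ (⋃ j, T j) ≤ 0 + μ (⋃ j, T j) := by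
      rw [← measure_union disjoint_sdiff_left (MeasurableSet.iUnion hmeas), sdiff_union_self,
        zero_add]
      exact h1
    exact le_antisymm ((ENNReal.add_le_add_iff_right (measure_ne_top _ _)).1 h2) bot_le
  refine ⟨T, hT, ?_⟩
  ext p
  constructor
  · intro h
    rw [mem_AE]
    by_contra hne'
    have hne'' : μ (p.1 ∩ (⋃ j, T j)ᶜ) ≠ 0 := hne'
    obtain ⟨r, hr, s, hs, hrs⟩ :=
      h _ (restr_le p _ (MeasurableSet.iUnion hmeas).compl hne'')
    refine not_AE_compl (E := ⋃ j, T j) (down_AE _ _ (?_ : s ∈ AE μ (⋃ j, T j)) _ hrs)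
      (down_AE _ _ (restr_mem p _ (MeasurableSet.iUnion hmeas).compl hne'') _ hr)
    exact hnull s hs
  · intro h q hq
    have h1 : q ∈ AE μ (⋃ j, T j) := down_AE _ _ h _ hq
    have h2 : ∃ j, μ (q.1 ∩ T j) ≠ 0 := by
      by_contra hcon
      push Not at hcon
      refine q.2.2 ?_
      have h3 : μ (⋃ j, q.1 ∩ T j) = 0 := measure_iUnion_null hcon
      refine measure_mono_null ?_ (measure_union_null h3 h1)
      intro x hx
      by_cases hx' : x ∈ ⋃ j, T j
      · obtain ⟨j, hj⟩ := mem_iUnion.1 hx'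
        exact Or.inl (mem_iUnion.2 ⟨j, hx, hj⟩)
      · exact Or.inr ⟨hx, hx'⟩
    obtain ⟨j, hj⟩ := h2
    rcases hT j with h3 | ⟨s, hs, h3⟩
    · rw [h3, inter_empty, measure_empty] at hj
      exact absurd rfl hj
    · refine ⟨restr q (T j) (hmeas j) hj, restr_le _ _ _ _, s, hs, ?_⟩
      rw [le_iff_AE, ← h3]
      exact restr_mem _ _ _ _

end Meas

end Pool.Agent.TH773.PSet
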