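import Mathlib
import Pool.Agent.TH773.PSet.Rep

/-!
# The sentence `Covered` in the ground model

For the trivial forcing the sentence `Covered` is equivalent to the statement that the space `ω*`
can be covered by nowhere dense P-sets.
-/

set_option autoImplicit false
set_option linter.unusedSectionVars false
set_option linter.unusedSimpArgs false

namespace Pool.Agent.TH773.PSet

open Set Filter Topology

/-! ### Combinatorial reformulation -/

/-- all but finitely many elements of `A` belong to `B` -/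
def Alm (A B : Set ℕ) : Prop := ∃ N, ∀ n, N ≤ n → n ∈ A → n ∈ B

/-- `A` is infinite -/
def In (A : Set ℕ) : Prop := ∀ N, ∃ n, N ≤ n ∧ n ∈ A

structure CF (F : Set (Set ℕ)) : Prop where
  ne : ∃ A, A ∈ F
  inf : ∀ A, A ∈ F → In A
  up : ∀ A B, A ∈ F → Alm A B → B ∈ F
  inter : ∀ A B, A ∈ F → B ∈ F → ∃ C, C ∈ F ∧ C ⊆ A ∧ C ⊆ B

structure CU (U : Set (Set ℕ)) : Prop extends CF U where
  ultra : ∀ A B : Set ℕ, (∀ n, n ∈ A ∨ n ∈ B) → A ∈ U ∨ B ∈ U

def CP (F : Set (Set ℕ)) : Prop :=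
  ∀ A : ℕ → Set ℕ, (∀ n, A n ∈ F) → ∃ B, B ∈ F ∧ ∀ n, Alm B (A n)

def CN (F : Set (Set ℕ)) : Prop :=
  ∀ A : Set ℕ, In A → ∃ B C : Set ℕ, In B ∧ B ⊆ A ∧ C ∈ F ∧ ∀ n, ¬ (n ∈ B ∧ n ∈ C)

def CC : Prop := ∀ U, CU U → ∃ F, CF F ∧ CP F ∧ CN F ∧ F ⊆ U

section Unit

theorem u_fnot {φ : Set Unit} : () ∈ fnot φ ↔ () ∉ φ :=
  ⟨fun h => h () le_rfl, fun h _ _ => h⟩

theorem u_fand {φ ψ : Set Unit} : () ∈ fand φ ψ ↔ () ∈ φ ∧ () ∈ ψ := Iff.rfl

theorem u_fimp {φ ψ : Set Unit} : () ∈ fimp φ ψ ↔ (() ∈ φ → () ∈ ψ) := by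
  unfold fimp
  rw [u_fnot, u_fand, u_fnot]
  tauto

theorem u_disj {φ ψ : Set Unit} : () ∈ disj φ ψ ↔ (() ∈ φ ∨ () ∈ ψ) := by
  unfold disj
  rw [u_fnot, u_fand, u_fnot, u_fnot]
  tauto

theorem u_fall {ι : Sort*} {φ : ι → Set Unit} : () ∈ fall φ ↔ ∀ i, () ∈ φ i := Iff.rfl

theorem u_fex {ι : Sort*} {φ : ι → Set Unit} : () ∈ fex φ ↔ ∃ i, () ∈ φ i := by
  unfold fex
  rw [u_fnot, u_fall]
  simp only [u_fnot]
  push Not
  rfl

theorem u_meets {N : Set Unit} : () ∈ meets N ↔ () ∈ N := by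
  constructor
  · intro h
    obtain ⟨_, _, _, hs, _⟩ := h () le_rfl
    exact hs
  · intro h q _
    exact ⟨(), le_rfl, (), h, le_rfl⟩

/-- names for subsets of `ω` in the trivial extension are subsets of `ω` -/
def e : RName Unit ≃ Set ℕ where
  toFun A := {n | () ∈ A n}
  invFun S := fun n => {_u | n ∈ S}
  left_inv A := by
    ext n u
    rfl
  right_inv S := rfl

theorem mem_e {A : RName Unit} {n : ℕ} : n ∈ e A ↔ () ∈ A n := Iff.rfl

/-- names for families of subsets of `ω` in the trivial extension are families of subsets of `ω` -/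
def e2 : FName Unit ≃ Set (Set ℕ) where
  toFun F := {S | () ∈ F (e.symm S)}
  invFun 𝒮 := fun A => {_u | e A ∈ 𝒮}
  left_inv F := by
    ext A u
    simp
  right_inv 𝒮 := by
    ext S
    simp

theorem u_Mem {A : RName Unit} {F : FName Unit} : () ∈ Mem A F ↔ e A ∈ e2 F := by
  have h1 : e A ∈ e2 F ↔ () ∈ F A := by
    show () ∈ F (e.symm (e A)) ↔ _
    rw [e.symm_apply_apply]
  rw [h1]
  unfold Mem Same Sub
  simp only [u_fex, u_fand, u_fall, u_fimp, u_meets]
  constructor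
  · rintro ⟨B, ⟨h2, h3⟩, h4⟩
    have : A = B := by
      ext n u
      exact ⟨h2 n, h3 n⟩
    rwa [this]
  · intro h
    exact ⟨A, ⟨fun _ h => h, fun _ h => h⟩, h⟩

theorem u_Inf {A : RName Unit} : () ∈ Inf A ↔ In (e A) := by
  unfold Inf In
  simp only [u_fex, u_fand, u_fall, u_fimp, u_meets, mem_e, exists_prop]

theorem u_AlmostSub {A B : RName Unit} : () ∈ AlmostSub A B ↔ Alm (e A) (e B) := by
  unfold AlmostSub Alm
  simp only [u_fex, u_fand, u_fall, u_fimp, u_meets, mem_e]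

theorem u_Sub {A B : RName Unit} : () ∈ Sub A B ↔ e A ⊆ e B := by
  unfold Sub
  simp only [u_fall, u_fimp, u_meets]
  exact Iff.rfl

theorem u_Disj {A B : RName Unit} : () ∈ Disj A B ↔ ∀ n, ¬ (n ∈ e A ∧ n ∈ e B) := by
  unfold Disj
  simp only [u_fall, u_fnot, u_fand, u_meets, mem_e]

theorem u_Cover {A B : RName Unit} : () ∈ Cover A B ↔ ∀ n, (n ∈ e A ∨ n ∈ e B) := by
  unfold Cover
  simp only [u_fall, u_disj, u_meets, mem_e]

theorem u_IsFilter {F : FName Unit} : () ∈ IsFilter F ↔ CF (e2 F) := by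
  unfold IsFilter
  simp only [u_fex, u_fand, u_fall, u_fimp, u_Mem, u_Inf, u_AlmostSub, u_Sub]
  constructor
  · rintro ⟨h1, h2, h3, h4⟩
    exact ⟨e.surjective.exists.2 h1, e.surjective.forall.2 h2,
      e.surjective.forall.2 fun A => e.surjective.forall.2 fun B h h' => h3 A B ⟨h, h'⟩,
      e.surjective.forall.2 fun A => e.surjective.forall.2 fun B h h' =>
        e.surjective.exists.2 (h4 A B ⟨h, h'⟩)⟩
  · rintro ⟨h1, h2, h3, h4⟩
    exact ⟨e.surjective.exists.1 h1, e.surjective.forall.1 h2, fun A B h => h3 _ _ h.1 h.2,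
      fun A B h => e.surjective.exists.1 (h4 _ _ h.1 h.2)⟩

theorem u_IsUltra {F : FName Unit} : () ∈ IsUltra F ↔ CU (e2 F) := by
  unfold IsUltra
  simp only [u_fex, u_fand, u_fall, u_fimp, u_Mem, u_Cover, u_disj, u_IsFilter]
  constructor
  · rintro ⟨h1, h2⟩
    exact ⟨h1, e.surjective.forall.2 fun A => e.surjective.forall.2 fun B => h2 A B⟩
  · rintro ⟨h1, h2⟩
    exact ⟨h1, fun A B => h2 _ _⟩

theorem u_IsP {F : FName Unit} : () ∈ IsP F ↔ CP (e2 F) := by
  unfold IsP CP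
  simp only [u_fex, u_fand, u_fall, u_fimp, u_Mem, u_AlmostSub]
  constructor
  · intro h A hA
    obtain ⟨B, hB, hB'⟩ := h (fun n => e.symm (A n)) fun n => by
      rw [e.apply_symm_apply]
      exact hA n
    refine ⟨e B, hB, fun n => ?_⟩
    have := hB' n
    rwa [e.apply_symm_apply] at this
  · intro h A hA
    obtain ⟨B, hB, hB'⟩ := h (fun n => e (A n)) hA
    refine ⟨e.symm B, by rwa [e.apply_symm_apply], fun n => ?_⟩
    rw [e.apply_symm_apply]
    exact hB' n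

theorem u_IsNwd {F : FName Unit} : () ∈ IsNwd F ↔ CN (e2 F) := by
  unfold IsNwd CN
  simp only [u_fex, u_fand, u_fall, u_fimp, u_Mem, u_Inf, u_Sub, u_Disj]
  constructor
  · intro h
    exact e.surjective.forall.2 fun A hA => by
      obtain ⟨B, C, h'⟩ := h A hA
      exact ⟨e B, e C, h'⟩
  · intro h A hA
    obtain ⟨B, C, h'⟩ := h (e A) hA
    exact ⟨e.symm B, e.symm C, by simpa only [e.apply_symm_apply] using h'⟩

theorem u_Incl {F U : FName Unit} : () ∈ Incl F U ↔ e2 F ⊆ e2 U := by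
  unfold Incl
  simp only [u_fall, u_fimp, u_Mem]
  constructor
  · intro h
    exact e.surjective.forall.2 h
  · intro h A hA
    exact h hA

theorem u_Covered : () ∈ Covered Unit ↔ CC := by
  unfold Covered CC
  simp only [u_fex, u_fand, u_fall, u_fimp, u_IsFilter, u_IsUltra, u_IsP, u_IsNwd, u_Incl]
  constructor
  · intro h
    exact e2.surjective.forall.2 fun U hU => e2.surjective.exists.2 (h U hU)
  · intro h U hU
    exact e2.surjective.exists.1 (h _ hU)

end Unit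

/-! ### The topology of `ω*` -/

section Top

/-- basic clopen sets -/
def bas (A : Set ℕ) : Set OmegaStar := {x | A ∈ x.1}

theorem isOpen_bas (A : Set ℕ) : IsOpen (bas A) :=
  (ultrafilter_isOpen_basic A).preimage continuous_subtype_val

theorem isClosed_bas (A : Set ℕ) : IsClosed (bas A) :=
  (ultrafilter_isClosed_basic A).preimage continuous_subtype_val

theorem isClosed_omegaStar : IsClosed {x : Ultrafilter ℕ | ∀ n, x ≠ pure n} := by
  have : {x : Ultrafilter ℕ | ∀ n, x ≠ pure n} = ⋂ n : ℕ, {x : Ultrafilter ℕ | {n}ᶜ ∈ x} := by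
    ext x
    simp only [mem_ofPred_eq, mem_iInter]
    refine forall_congr' fun n => ?_
    rw [Ultrafilter.compl_mem_iff_notMem]
    refine not_congr ⟨fun h => ?_, fun h => ?_⟩
    · rw [h]; simp
    · obtain ⟨y, hy, h'⟩ := Ultrafilter.eq_pure_of_finite_mem (finite_singleton n) h
      rw [h', mem_singleton_iff.1 hy]
  rw [this]
  exact isClosed_iInter fun n => ultrafilter_isClosed_basic _

instance : CompactSpace OmegaStar :=
  isCompact_iff_compactSpace.1 (isClosed_omegaStar.isCompact)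

theorem exists_bas {x : OmegaStar} {G : Set OmegaStar} (hG : IsOpen G) (hx : x ∈ G) :
    ∃ A : Set ℕ, x ∈ bas A ∧ bas A ⊆ G := by
  obtain ⟨V, hV, rfl⟩ := isOpen_induced_iff.1 hG
  obtain ⟨B, ⟨A, rfl⟩, hxB, hB⟩ := ultrafilterBasis_is_basis.exists_subset_of_mem_open hx hV
  exact ⟨A, hxB, fun y hy => hB hy⟩

theorem in_iff {A : Set ℕ} : In A ↔ A.Infinite := by
  have h := Nat.frequently_atTop_iff_infinite (p := fun n => n ∈ A)
  rw [frequently_atTop] at h
  exact h

theorem bas_nonempty {A : Set ℕ} (hA : In A) : ∃ x : OmegaStar, A ∈ x.1 := by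
  rw [in_iff] at hA
  have := hA.cofinite_inf_principal_neBot
  obtain ⟨u, hu⟩ := Ultrafilter.exists_le (cofinite ⊓ 𝓟 A)
  refine ⟨⟨u, fun n h => ?_⟩, hu (mem_inf_of_right (mem_principal_self A))⟩
  have h1 : {n}ᶜ ∈ u := hu (mem_inf_of_left (finite_singleton n).compl_mem_cofinite)
  rw [h] at h1
  simp at h1

theorem star_infinite (x : OmegaStar) {A : Set ℕ} (hA : A ∈ x.1) : In A := by
  rw [in_iff]
  intro hfin
  obtain ⟨y, _, h⟩ := Ultrafilter.eq_pure_of_finite_mem hfin hA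
  exact x.2 y h

theorem star_almost (x : OmegaStar) {A B : Set ℕ} (hA : A ∈ x.1) (h : Alm A B) : B ∈ x.1 := by
  obtain ⟨N, hN⟩ := h
  by_contra hB
  rw [← Ultrafilter.compl_mem_iff_notMem] at hB
  have h1 : A ∩ Bᶜ ∈ x.1 := inter_mem hA hB
  obtain ⟨n, hn, hn'⟩ := star_infinite x h1 N
  exact hn'.2 (hN n hn hn'.1)

theorem cu_star (x : OmegaStar) : CU {S | S ∈ x.1} where
  ne := ⟨univ, univ_mem⟩
  inf A hA := star_infinite x hA
  up A B hA h := star_almost x hA h
  inter A B hA hB := ⟨A ∩ B, inter_mem hA hB, inter_subset_left, inter_subset_right⟩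
  ultra A B h := by
    have h1 : A ∪ B ∈ x.1 := by
      rw [eq_univ_of_forall (s := A ∪ B) h]
      exact univ_mem
    exact Ultrafilter.union_mem_iff.1 h1

theorem alm_of_subset {A B : Set ℕ} (h : A ⊆ B) : Alm A B := ⟨0, fun _ _ h' => h h'⟩

/-- an abstract ultrafilter is a point of `ω*` -/
theorem exists_star {U : Set (Set ℕ)} (hU : CU U) : ∃ x : OmegaStar, ∀ S, S ∈ x.1 ↔ S ∈ U := by
  classical
  let f : Filter ℕ :=
    { sets := U
      univ_sets := by
        obtain ⟨A, hA⟩ := hU.ne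
        exact hU.up A univ hA (alm_of_subset (subset_univ A))
      sets_of_superset := fun hA h => hU.up _ _ hA (alm_of_subset h)
      inter_sets := fun hA hB => by
        obtain ⟨C, hC, h1, h2⟩ := hU.inter _ _ hA hB
        exact hU.up _ _ hC (alm_of_subset (subset_inter h1 h2)) }
  have hmem : ∀ S, S ∈ f ↔ S ∈ U := fun S => Iff.rfl
  have hne : ∅ ∉ U := fun h => by
    obtain ⟨n, _, h'⟩ := hU.inf _ h 0
    exact h'
  let u : Ultrafilter ℕ := Ultrafilter.ofComplNotMemIff f fun S => by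
    rw [hmem, hmem]
    constructor
    · intro h
      rcases hU.ultra S Sᶜ (fun n => em _) with h' | h'
      · exact h'
      · exact absurd h' h
    · intro h h'
      obtain ⟨C, hC, h1, h2⟩ := hU.inter _ _ h h'
      obtain ⟨n, _, hn⟩ := hU.inf _ hC 0
      exact h2 hn (h1 hn)
  have hu : ∀ S, S ∈ u ↔ S ∈ U := fun S => Iff.rfl
  refine ⟨⟨u, fun n h => ?_⟩, hu⟩
  have h1 : ({n} : Set ℕ) ∈ u := by
    rw [h]; simp
  obtain ⟨k, hk, hk'⟩ := hU.inf _ ((hu _).1 h1) (n + 1)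
  rw [mem_singleton_iff] at hk'
  omega

/-- the closed set of a filter -/
def clo (F : Set (Set ℕ)) : Set OmegaStar := {x | ∀ S ∈ F, S ∈ x.1}

theorem isClosed_clo (F : Set (Set ℕ)) : IsClosed (clo F) := by
  have : clo F = ⋂ S ∈ F, bas S := by
    ext x
    simp [clo, bas]
  rw [this]
  exact isClosed_biInter fun S _ => isClosed_bas S

/-- compactness -/
theorem exists_mem_of_clo_subset {F : Set (Set ℕ)} (hF : CF F) {G : Set OmegaStar} (hG : IsOpen G)
    (h : clo F ⊆ G) : ∃ S ∈ F, bas S ⊆ G := by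
  classical
  have hne : Nonempty F := by
    obtain ⟨A, hA⟩ := hF.ne
    exact ⟨⟨A, hA⟩⟩
  have hdir : Directed (fun s t => s ⊇ t) fun S : F => bas S.1 ∩ Gᶜ := by
    intro S T
    obtain ⟨C, hC, h1, h2⟩ := hF.inter _ _ S.2 T.2
    refine ⟨⟨C, hC⟩, ?_, ?_⟩
    · rintro x ⟨hx, hx'⟩
      exact ⟨mem_of_superset hx h1, hx'⟩
    · rintro x ⟨hx, hx'⟩
      exact ⟨mem_of_superset hx h2, hx'⟩
  by_contra hcon
  push Not at hcon
  have h1 := IsCompact.nonempty_iInter_of_directed_nonempty_isCompact_isClosed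
    (fun S : F => bas S.1 ∩ Gᶜ) hdir (fun S => by
      obtain ⟨x, hx, hx'⟩ := not_subset.1 (hcon S.1 S.2)
      exact ⟨x, hx, hx'⟩)
    (fun S => ((isClosed_bas S.1).inter hG.isClosed_compl).isCompact)
    (fun S => (isClosed_bas S.1).inter hG.isClosed_compl)
  obtain ⟨x, hx⟩ := h1
  rw [mem_iInter] at hx
  have h2 : x ∈ clo F := fun S hS => (hx ⟨S, hS⟩).1
  exact (hx hne.some).2 (h h2)

theorem isPSet_clo {F : Set (Set ℕ)} (hF : CF F) (hP : CP F) : IsPSet (clo F) := by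
  refine ⟨isClosed_clo F, fun G hG => ?_⟩
  choose S hS hS' using fun n => exists_mem_of_clo_subset hF (hG n).1 (hG n).2
  obtain ⟨B, hB, hB'⟩ := hP S hS
  intro x hx
  refine mem_interior.2 ⟨bas B, ?_, isOpen_bas B, hx B hB⟩
  intro y hy
  exact mem_iInter.2 fun n => hS' n (star_almost y hy (hB' n))

theorem isNowhereDense_clo {F : Set (Set ℕ)} (hN : CN F) : IsNowhereDense (clo F) := by
  unfold IsNowhereDense
  rw [(isClosed_clo F).closure_eq, ← not_nonempty_iff_eq_empty]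
  rintro ⟨x, hx⟩
  obtain ⟨A, hA, hA'⟩ := exists_bas isOpen_interior hx
  obtain ⟨B, C, hB, hBA, hC, hBC⟩ := hN A (star_infinite x hA)
  obtain ⟨y, hy⟩ := bas_nonempty hB
  have h1 : y ∈ clo F := interior_subset (hA' (mem_of_superset hy hBA))
  have h2 : B ∩ C ∈ y.1 := inter_mem hy (h1 C hC)
  obtain ⟨n, _, hn⟩ := star_infinite y h2 0
  exact hBC n hn

/-- the filter of a closed set -/
def fil (K : Set OmegaStar) : Set (Set ℕ) := {S | K ⊆ bas S}

theorem cf_fil {K : Set OmegaStar} (hK : K.Nonempty) : CF (fil K) where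
  ne := ⟨univ, fun _ _ => univ_mem⟩
  inf A hA := by
    obtain ⟨x, hx⟩ := hK
    exact star_infinite x (hA hx)
  up A B hA h x hx := star_almost x (hA hx) h
  inter A B hA hB := ⟨A ∩ B, fun x hx => inter_mem (hA hx) (hB hx), inter_subset_left,
    inter_subset_right⟩

theorem exists_bas_of_compact {K G : Set OmegaStar} (hK : IsClosed K) (hG : IsOpen G)
    (h : K ⊆ G) : ∃ T, K ⊆ bas T ∧ bas T ⊆ G := by
  classical
  refine hK.isCompact.induction_on (p := fun K => ∃ T, K ⊆ bas T ∧ bas T ⊆ G) ?_ ?_ ?_ ?_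
  · exact ⟨∅, empty_subset _, fun x hx => absurd hx (by simp [bas])⟩
  · rintro s t hst ⟨T, h1, h2⟩
    exact ⟨T, hst.trans h1, h2⟩
  · rintro s t ⟨T, h1, h2⟩ ⟨T', h1', h2'⟩
    refine ⟨T ∪ T', ?_, ?_⟩
    · rintro x (hx | hx)
      · exact mem_of_superset (h1 hx) subset_union_left
      · exact mem_of_superset (h1' hx) subset_union_right
    · intro x hx
      rcases Ultrafilter.union_mem_iff.1 hx with h' | h'
      · exact h2 h'
      · exact h2' h'
  · intro x hx
    obtain ⟨A, hA, hA'⟩ := exists_bas hG (h hx)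
    exact ⟨bas A, mem_nhdsWithin_of_mem_nhds ((isOpen_bas A).mem_nhds hA), A, subset_rfl, hA'⟩

theorem alm_of_bas {T S : Set ℕ} (h : bas T ⊆ bas S) : Alm T S := by
  by_contra hcon
  have h1 : In (T ∩ Sᶜ) := by
    intro N
    unfold Alm at hcon
    push Not at hcon
    obtain ⟨n, hn, h1, h2⟩ := hcon N
    exact ⟨n, hn, h1, h2⟩
  obtain ⟨y, hy⟩ := bas_nonempty h1
  have h2 : S ∈ y.1 := h (mem_of_superset hy inter_subset_left)
  have h3 : Sᶜ ∈ y.1 := mem_of_superset hy inter_subset_right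
  exact (Ultrafilter.compl_mem_iff_notMem.1 h3) h2

theorem cp_fil {K : Set OmegaStar} (hK : IsPSet K) : CP (fil K) := by
  intro A hA
  have h1 := hK.2 (fun n => bas (A n)) fun n => ⟨isOpen_bas _, hA n⟩
  obtain ⟨T, hT, hT'⟩ := exists_bas_of_compact hK.1 isOpen_interior h1
  exact ⟨T, hT, fun n => alm_of_bas (hT'.trans (interior_subset.trans (iInter_subset _ n)))⟩

theorem cn_fil {K : Set OmegaStar} (hK : IsClosed K) (hN : IsNowhereDense K) : CN (fil K) := by
  intro A hA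
  obtain ⟨x, hx⟩ := bas_nonempty hA
  unfold IsNowhereDense at hN
  rw [hK.closure_eq] at hN
  have h1 : ∃ y : OmegaStar, y ∈ bas A ∧ y ∉ K := by
    by_contra hcon
    push Not at hcon
    have h2 : x ∈ interior K := mem_interior.2 ⟨bas A, hcon, isOpen_bas A, hx⟩
    rw [hN] at h2
    exact h2
  obtain ⟨y, hy, hyK⟩ := h1
  obtain ⟨B, hB, hB'⟩ := exists_bas hK.isOpen_compl hyK
  refine ⟨A ∩ B, Bᶜ, star_infinite y (inter_mem hy hB), inter_subset_left, ?_,
    fun n hn => hn.2 hn.1.2⟩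
  intro z hz
  exact Ultrafilter.compl_mem_iff_notMem.2 fun h => hB' h hz

theorem cc_iff : CC ↔ OmegaStarCovered := by
  constructor
  · intro h
    refine ⟨{K | IsNowhereDense K ∧ IsPSet K}, fun F hF => hF, eq_univ_of_forall fun x => ?_⟩
    obtain ⟨F, hF, hP, hN, hU⟩ := h _ (cu_star x)
    exact mem_sUnion.2 ⟨clo F, ⟨isNowhereDense_clo hN, isPSet_clo hF hP⟩, fun S hS => hU hS⟩
  · rintro ⟨𝓕, h𝓕, hcov⟩ U hU
    obtain ⟨x, hx⟩ := exists_star hU
    obtain ⟨K, hK, hxK⟩ := mem_sUnion.1 (hcov ▸ mem_univ x : x ∈ ⋃₀ 𝓕)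
    obtain ⟨hN, hP⟩ := h𝓕 K hK
    exact ⟨fil K, cf_fil ⟨x, hxK⟩, cp_fil hP, cn_fil hP.1 hN, fun S hS => (hx S).1 (hS hxK)⟩

/-- In the ground model, the sentence `Covered` says that `ω*` can be covered by nowhere dense
P-sets. -/
theorem covered_ground (p : Unit) : p ∈ Covered Unit ↔ OmegaStarCovered :=
  u_Covered.trans cc_iff

end Top

end Pool.Agent.TH773.PSet
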