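import Mathlib
import Pool.Agent.TH773.PSet.Rep

/-!
# Statements about random sets
-/

set_option autoImplicit false
set_option linter.unusedSectionVars false

namespace Pool.Agent.TH773.PSet

open MeasureTheory Set Filter Topology

universe u v

variable {Ω : Type u} [MeasurableSpace Ω] {μ : Measure Ω}

/-- sequences of measurable sets, that is, random subsets of `ℕ` -/
def Meas (X : ℕ → Set Ω) : Prop := ∀ n, MeasurableSet (X n)

variable (μ) in
/-- The name of a random set. -/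
def hat (X : ℕ → Set Ω) : RName (Cond μ) := fun n => AE μ (X n)

theorem meets_hat {X : ℕ → Set Ω} (hX : Meas X) (n : ℕ) : meets (hat μ X n) = AE μ (X n) :=
  meets_AE (hX n)

theorem sub_hat {X Y : ℕ → Set Ω} (hX : Meas X) (hY : Meas Y) :
    Sub (hat μ X) (hat μ Y) = AE μ {x | ∀ n, x ∈ X n → x ∈ Y n} := by
  unfold Sub
  simp only [meets_hat hX, meets_hat hY, fimp_AE (hX _) (hY _), fall_AE]
  congr 1
  ext x
  simp only [mem_iInter, mem_union, mem_compl_iff, mem_ofPred_eq]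
  exact forall_congr' fun n => by tauto

theorem measurable_imp {X Y : ℕ → Set Ω} (hX : Meas X) (hY : Meas Y) (n : ℕ) :
    MeasurableSet ((X n)ᶜ ∪ Y n) := (hX n).compl.union (hY n)

theorem almostSub_hat {X Y : ℕ → Set Ω} (hX : Meas X) (hY : Meas Y) :
    AlmostSub (hat μ X) (hat μ Y) = AE μ {x | ∃ N, ∀ n, N ≤ n → x ∈ X n → x ∈ Y n} := by
  unfold AlmostSub
  simp only [meets_hat hX, meets_hat hY, fimp_AE (hX _) (hY _), fall_AE]
  rw [fex_AE fun N => MeasurableSet.iInter fun n => MeasurableSet.iInter fun _ =>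
    measurable_imp hX hY n]
  congr 1
  ext x
  simp only [mem_iInter, mem_iUnion, mem_union, mem_compl_iff, mem_ofPred_eq]
  exact exists_congr fun N => forall_congr' fun n => forall_congr' fun _ => by tauto

theorem inf_hat {X : ℕ → Set Ω} (hX : Meas X) :
    Inf (hat μ X) = AE μ {x | ∀ N, ∃ n, N ≤ n ∧ x ∈ X n} := by
  unfold Inf
  simp only [meets_hat hX]
  have h1 : ∀ N : ℕ, (fex fun n => fex fun _ : N ≤ n => AE μ (X n)) =
      AE μ (⋃ n, ⋃ (_ : N ≤ n), X n) := by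
    intro N
    have : (fun n => fex fun _ : N ≤ n => AE μ (X n)) =
        fun n => AE μ (⋃ (_ : N ≤ n), X n) := by
      ext1 n
      exact fex_AE fun _ => hX n
    rw [this, fex_AE fun n => MeasurableSet.iUnion fun _ => hX n]
  simp only [h1, fall_AE]
  congr 1
  ext x
  simp only [mem_iInter, mem_iUnion, mem_ofPred_eq, exists_prop]

theorem disj_hat {X Y : ℕ → Set Ω} (hX : Meas X) (hY : Meas Y) :
    Disj (hat μ X) (hat μ Y) = AE μ {x | ∀ n, ¬ (x ∈ X n ∧ x ∈ Y n)} := by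
  unfold Disj
  simp only [meets_hat hX, meets_hat hY, fand_AE, fnot_AE ((hX _).inter (hY _)), fall_AE]
  congr 1
  ext x
  simp

theorem cover_hat {X Y : ℕ → Set Ω} (hX : Meas X) (hY : Meas Y) :
    Cover (hat μ X) (hat μ Y) = AE μ {x | ∀ n, x ∈ X n ∨ x ∈ Y n} := by
  unfold Cover
  simp only [meets_hat hX, meets_hat hY, disj_AE (hX _) (hY _), fall_AE]
  congr 1
  ext x
  simp

theorem same_of_ae {X Y : ℕ → Set Ω} (hX : Meas X) (hY : Meas Y) {r : Cond μ}
    (h : ∀ᵐ x ∂μ, x ∈ r.1 → ∀ n, (x ∈ X n ↔ x ∈ Y n)) : r ∈ Same (hat μ X) (hat μ Y) := by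
  constructor
  · rw [sub_hat hX hY, mem_AE_iff]
    exact h.mono fun x hx h' n => (hx h' n).1
  · rw [sub_hat hY hX, mem_AE_iff]
    exact h.mono fun x hx h' n => (hx h' n).2

theorem ae_of_same {X Y : ℕ → Set Ω} (hX : Meas X) (hY : Meas Y) {r : Cond μ}
    (h : r ∈ Same (hat μ X) (hat μ Y)) : ∀ᵐ x ∂μ, x ∈ r.1 → ∀ n, (x ∈ X n ↔ x ∈ Y n) := by
  obtain ⟨h1, h2⟩ := h
  rw [sub_hat hX hY, mem_AE_iff] at h1
  rw [sub_hat hY hX, mem_AE_iff] at h2
  filter_upwards [h1, h2] with x h1 h2 h3 n using ⟨h1 h3 n, h2 h3 n⟩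

section Fin

variable [IsFiniteMeasure μ]

theorem measurable_S {N : Set (Cond μ)} {S : ℕ → Set Ω}
    (hS : ∀ j, S j = ∅ ∨ ∃ s ∈ N, S j = s.1) (j : ℕ) : MeasurableSet (S j) := by
  rcases hS j with h | ⟨s, -, h⟩
  · rw [h]; exact MeasurableSet.empty
  · rw [h]; exact s.2.1

theorem exists_rep (A : RName (Cond μ)) :
    ∃ X : ℕ → Set Ω, Meas X ∧ ∀ n, meets (A n) = AE μ (X n) := by
  choose S hS hS' using fun n => exists_meets (A n)
  exact ⟨fun n => ⋃ j, S n j, fun n => MeasurableSet.iUnion fun j => measurable_S (hS n) j, hS'⟩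

theorem exists_hat (A : RName (Cond μ)) :
    ∃ X : ℕ → Set Ω, Meas X ∧ ∀ p, p ∈ Same A (hat μ X) := by
  obtain ⟨X, hX, h⟩ := exists_rep A
  refine ⟨X, hX, fun p => same_of fun q _ n => ?_⟩
  rw [meets_hat hX, h]

theorem exists_pos {S : ℕ → Set Ω} {q : Cond μ} (h : q ∈ AE μ (⋃ j, S j)) :
    ∃ j, μ (q.1 ∩ S j) ≠ 0 := by
  by_contra hcon
  push Not at hcon
  refine q.2.2 ?_
  have h3 : μ (⋃ j, q.1 ∩ S j) = 0 := measure_iUnion_null hcon
  refine measure_mono_null ?_ (measure_union_null h3 h)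
  intro x hx
  by_cases hx' : x ∈ ⋃ j, S j
  · obtain ⟨j, hj⟩ := mem_iUnion.1 hx'
    exact Or.inl (mem_iUnion.2 ⟨j, hx, hj⟩)
  · exact Or.inr ⟨hx, hx'⟩

/-- Names can be mixed. -/
theorem mix (D : (ℕ → Set Ω) → Set (Cond μ)) (hdown : ∀ X, Down (D X))
    (hloc : ∀ X Y : ℕ → Set Ω, Meas X → Meas Y → ∀ r : Cond μ,
      (∀ᵐ x ∂μ, x ∈ r.1 → ∀ n, (x ∈ X n ↔ x ∈ Y n)) → r ∈ D X → r ∈ D Y)
    {q : Cond μ} (hq : ∀ q' ≤ q, ∃ r ≤ q', ∃ X, Meas X ∧ r ∈ D X) :
    ∃ X, Meas X ∧ ∀ q' ≤ q, ∃ r ≤ q', r ∈ D X := by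
  classical
  obtain ⟨S, hS, hS'⟩ := exists_meets {r : Cond μ | ∃ X, Meas X ∧ r ∈ D X}
  have hqm : q ∈ AE μ (⋃ j, S j) := by
    rw [← hS']
    intro q' hq'
    obtain ⟨r, hr, X, hX, hrX⟩ := hq q' hq'
    exact ⟨r, hr, r, ⟨X, hX, hrX⟩, le_rfl⟩
  have hX : ∀ j, ∃ X : ℕ → Set Ω, Meas X ∧ ∀ r : Cond μ, r ∈ AE μ (S j) → r ∈ D X := by
    intro j
    rcases hS j with h | ⟨s, ⟨X, hX, hs⟩, h⟩
    · refine ⟨fun _ => ∅, fun _ => MeasurableSet.empty, fun r hr => ?_⟩
      rw [h, mem_AE, sdiff_empty] at hr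
      exact absurd hr r.2.2
    · refine ⟨X, hX, fun r hr => hdown X s hs r ?_⟩
      rw [h] at hr
      exact hr
  choose X hX hX' using hX
  have hT : ∀ j, MeasurableSet (disjointed S j) :=
    fun j => MeasurableSet.disjointed (fun i => measurable_S hS i) j
  let Y : ℕ → Set Ω := fun n => ⋃ j, disjointed S j ∩ X j n
  have hY : Meas Y := fun n => MeasurableSet.iUnion fun j => (hT j).inter (hX j n)
  refine ⟨Y, hY, fun q' hq' => ?_⟩
  have h1 : q' ∈ AE μ (⋃ j, disjointed S j) := by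
    rw [iUnion_disjointed]
    exact down_AE _ _ hqm _ hq'
  obtain ⟨j, hj⟩ := exists_pos h1
  refine ⟨restr q' _ (hT j) hj, restr_le _ _ _ _, ?_⟩
  refine hloc (X j) Y (hX j) hY _ ?_ (hX' j _ ?_)
  · refine ae_of_all _ fun x hx n => ?_
    have hx2 : x ∈ disjointed S j := hx.2
    constructor
    · intro h
      exact mem_iUnion.2 ⟨j, hx2, h⟩
    · intro h
      obtain ⟨i, hi, hi'⟩ := mem_iUnion.1 h
      by_cases hij : i = j
      · rwa [hij] at hi'
      · exact absurd hx2 (Set.disjoint_left.1 (disjoint_disjointed S hij) hi)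
  · have := restr_mem q' _ (hT j) hj
    rw [mem_AE_iff] at this ⊢
    exact this.mono fun x hx h' => disjointed_subset S j (hx h')

end Fin

/-- the weight of the random set `X` -/
noncomputable def wt (m : ℕ → ENNReal) (X : ℕ → Set Ω) (x : Ω) : ENNReal :=
  ∑' k, (X k).indicator (fun _ => m k) x

theorem measurable_wt (m : ℕ → ENNReal) {X : ℕ → Set Ω} (hX : Meas X) :
    Measurable (wt m X) :=
  Measurable.ennreal_tsum fun k => measurable_const.indicator (hX k)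

end Pool.Agent.TH773.PSet
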