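import Mathlib
import Pool.Agent.TH773.PSet.Names

/-!
# The ideal of the random sets `w` with `μ (w n) → 0` which are measurable for a given
sub-σ-algebra
-/

set_option autoImplicit false
set_option linter.unusedSectionVars false

namespace Pool.Agent.TH773.PSet

open MeasureTheory Set Filter Topology

universe u v

section Congr

variable {P : Type u} [Preorder P] {A A' : RName P}

theorem inf_congr (h : ∀ n, meets (A n) = meets (A' n)) : Inf A = Inf A' := by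
  unfold Inf; simp only [h]

theorem mem_congr (h : ∀ n, meets (A n) = meets (A' n)) (F : FName P) : Mem A F = Mem A' F := by
  unfold Mem Same Sub; simp only [h]

theorem sub_congr (h : ∀ n, meets (A n) = meets (A' n)) (B : RName P) : Sub B A = Sub B A' := by
  unfold Sub; simp only [h]

theorem almostSub_congr {B B' : RName P} (h : ∀ n, meets (A n) = meets (A' n))
    (h' : ∀ n, meets (B n) = meets (B' n)) : AlmostSub A B = AlmostSub A' B' := by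
  unfold AlmostSub; simp only [h, h']

theorem cover_congr {B B' : RName P} (h : ∀ n, meets (A n) = meets (A' n))
    (h' : ∀ n, meets (B n) = meets (B' n)) : Cover A B = Cover A' B' := by
  unfold Cover; simp only [h, h']

end Congr

variable {Ω : Type u} [m0 : MeasurableSpace Ω] {μ : Measure Ω}

theorem exists_hat' [IsFiniteMeasure μ] (A : RName (Cond μ)) :
    ∃ X : ℕ → Set Ω, Meas X ∧ ∀ n, meets (A n) = meets (hat μ X n) := by
  obtain ⟨X, hX, h⟩ := exists_rep A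
  exact ⟨X, hX, fun n => by rw [meets_hat hX, h]⟩

/-- A class of measurable sets which is closed under countable unions. -/
structure IsClass (𝓖 : Set Ω → Prop) : Prop where
  empty : 𝓖 ∅
  iUnion : ∀ f : ℕ → Set Ω, (∀ n, 𝓖 (f n)) → 𝓖 (⋃ n, f n)
  meas : ∀ A, 𝓖 A → MeasurableSet A

variable (μ) in
/-- Random sets in the class `𝓖` which contain `n` with a probability which tends to `0`. -/
def Small (𝓖 : Set Ω → Prop) (w : ℕ → Set Ω) : Prop :=
  (∀ n, 𝓖 (w n)) ∧ Tendsto (fun n => μ (w n)) atTop (𝓝 0)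

theorem tendsto_tsum_zero {a : ℕ → ℕ → ENNReal} {ε : ℕ → ENNReal} (hε : ∑' j, ε j ≠ ⊤)
    (h1 : ∀ j n, a j n ≤ ε j) (h2 : ∀ j, Tendsto (a j) atTop (𝓝 0)) :
    Tendsto (fun n => ∑' j, a j n) atTop (𝓝 0) := by
  have := tendsto_lintegral_of_dominated_convergence (μ := Measure.count)
    (F := fun n (j : ℕ) => a j n) (f := fun _ => 0) ε (fun n => measurable_of_countable _)
    (fun n => ae_of_all _ fun j => h1 j n) (by rwa [lintegral_count])
    (ae_of_all _ fun j => h2 j)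
  simpa [lintegral_count] using this

theorem exists_bound {𝓖 : Set Ω → Prop} (h𝓖 : IsClass 𝓖) {w : ℕ → ℕ → Set Ω}
    (hw : ∀ j, Small μ 𝓖 (w j)) :
    ∃ v, Small μ 𝓖 v ∧ ∀ j, ∃ N, ∀ n, N ≤ n → w j n ⊆ v n := by
  classical
  have hε : ∀ j : ℕ, (2 : ENNReal)⁻¹ ^ j ≠ 0 := fun j =>
    pow_ne_zero _ (ENNReal.inv_ne_zero.2 (by simp))
  have hN : ∀ j, ∃ N, ∀ n, N ≤ n → μ (w j n) ≤ (2 : ENNReal)⁻¹ ^ j := by
    intro j
    have := (hw j).2.eventually (ge_mem_nhds (pos_iff_ne_zero.2 (hε j)))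
    exact eventually_atTop.1 this
  choose N hN using hN
  refine ⟨fun n => ⋃ j, ⋃ (_ : N j ≤ n), w j n, ⟨fun n => ?_, ?_⟩, fun j => ⟨N j, fun n hn => ?_⟩⟩
  · refine h𝓖.iUnion _ fun j => ?_
    by_cases h : N j ≤ n
    · simpa [h] using (hw j).1 n
    · simpa [h] using h𝓖.empty
  · have h1 : ∀ n, μ (⋃ j, ⋃ (_ : N j ≤ n), w j n) ≤
        ∑' j, if N j ≤ n then μ (w j n) else 0 := by
      intro n
      refine (measure_iUnion_le _).trans (ENNReal.tsum_le_tsum fun j => ?_)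
      split_ifs with h
      · exact measure_mono (iUnion_subset fun _ => subset_rfl)
      · have : ⋃ (_ : N j ≤ n), w j n = ∅ := by
          rw [iUnion_eq_empty]; exact fun h' => absurd h' h
        rw [this, measure_empty]
    refine tendsto_of_tendsto_of_tendsto_of_le_of_le tendsto_const_nhds ?_
      (fun _ => bot_le) h1
    refine tendsto_tsum_zero (ε := fun j => (2 : ENNReal)⁻¹ ^ j) ?_ ?_ ?_
    · rw [ENNReal.tsum_geometric]
      simp
    · intro j n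
      split_ifs with h
      · exact hN j n h
      · exact bot_le
    · intro j
      refine tendsto_of_tendsto_of_tendsto_of_le_of_le tendsto_const_nhds (hw j).2
        (fun _ => bot_le) ?_
      intro n
      dsimp only
      split_ifs
      · exact le_rfl
      · exact bot_le
  · intro x hx
    exact mem_iUnion.2 ⟨j, mem_iUnion.2 ⟨hn, hx⟩⟩

theorem small_empty {𝓖 : Set Ω → Prop} (h𝓖 : IsClass 𝓖) : Small μ 𝓖 (fun _ => ∅) :=
  ⟨fun _ => h𝓖.empty, by simp⟩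

theorem IsClass.union {𝓖 : Set Ω → Prop} (h𝓖 : IsClass 𝓖) {A B : Set Ω} (hA : 𝓖 A) (hB : 𝓖 B) :
    𝓖 (A ∪ B) := by
  have := h𝓖.iUnion (fun n => Nat.casesOn n A fun _ => B) (fun n => by
    rcases n with _ | n
    · exact hA
    · exact hB)
  have e : (⋃ n : ℕ, (Nat.casesOn n A fun _ => B : Set Ω)) = A ∪ B := by
    ext x
    simp only [mem_iUnion, mem_union]
    constructor
    · rintro ⟨_ | n, h⟩
      · exact Or.inl h
      · exact Or.inr h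
    · rintro (h | h)
      · exact ⟨0, h⟩
      · exact ⟨1, h⟩
  rwa [e] at this

theorem small_union {𝓖 : Set Ω → Prop} (h𝓖 : IsClass 𝓖) {w w' : ℕ → Set Ω} (h : Small μ 𝓖 w)
    (h' : Small μ 𝓖 w') : Small μ 𝓖 (fun n => w n ∪ w' n) := by
  refine ⟨fun n => h𝓖.union (h.1 n) (h'.1 n), ?_⟩
  refine tendsto_of_tendsto_of_tendsto_of_le_of_le tendsto_const_nhds ?_ (fun _ => bot_le)
    (fun n => measure_union_le (w n) (w' n))
  simpa using h.2.add h'.2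

variable (μ) in
/-- The name of the filter of the sets which include the complement of a small set, modulo finite
sets. -/
def famB (𝓖 : Set Ω → Prop) : FName (Cond μ) := fun B =>
  {p | ∃ w, Small μ 𝓖 w ∧ ∃ X, Meas X ∧ p ∈ Same B (hat μ X) ∧
    ∀ᵐ x ∂μ, x ∈ p.1 → ∃ N, ∀ n, N ≤ n → x ∉ w n → x ∈ X n}

variable [IsFiniteMeasure μ]

theorem mem_famB {𝓖 : Set Ω → Prop} (h𝓖 : IsClass 𝓖) {X : ℕ → Set Ω} (hX : Meas X) {p : Cond μ} :
    p ∈ Mem (hat μ X) (famB μ 𝓖) ↔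
      ∃ w, Small μ 𝓖 w ∧ ∀ᵐ x ∂μ, x ∈ p.1 → ∃ N, ∀ n, N ≤ n → x ∉ w n → x ∈ X n := by
  constructor
  · intro hp
    let D : Set (Cond μ) :=
      {r | ∃ w, Small μ 𝓖 w ∧ ∀ᵐ x ∂μ, x ∈ r.1 → ∃ N, ∀ n, N ≤ n → x ∉ w n → x ∈ X n}
    obtain ⟨S, hS, hS'⟩ := exists_meets D
    have hpm : p ∈ AE μ (⋃ j, S j) := by
      rw [← hS']
      intro q hq
      obtain ⟨r, hr, B, h1, h2⟩ := mem_fex.1 hp q hq
      obtain ⟨t, ht, s, ⟨w, hw, Y, hY, hs1, hs2⟩, hts⟩ := h2 r le_rfl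
      refine ⟨t, ht.trans hr, t, ⟨w, hw, ?_⟩, le_rfl⟩
      have h3 : t ∈ Same (hat μ X) (hat μ Y) :=
        same_trans ((reg_same _ _).1 _ h1 _ ht) ((reg_same _ _).1 _ hs1 _ hts)
      have h4 := ae_of_same hX hY h3
      have h5 : ∀ᵐ x ∂μ, x ∈ t.1 → x ∈ s.1 := mem_AE_iff.1 hts
      filter_upwards [hs2, h4, h5] with x h6 h7 h8 h9
      obtain ⟨N, hN⟩ := h6 (h8 h9)
      exact ⟨N, fun n hn hw => (h7 h9 n).2 (hN n hn hw)⟩
    have hw : ∀ j, ∃ w, Small μ 𝓖 w ∧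
        ∀ᵐ x ∂μ, x ∈ S j → ∃ N, ∀ n, N ≤ n → x ∉ w n → x ∈ X n := by
      intro j
      rcases hS j with h | ⟨s, ⟨w, hw, hs⟩, h⟩
      · refine ⟨_, small_empty h𝓖, ae_of_all _ fun x hx => ?_⟩
        rw [h] at hx
        exact absurd hx (notMem_empty x)
      · rw [h]
        exact ⟨w, hw, hs⟩
    choose w hw hw' using hw
    obtain ⟨v, hv, hv'⟩ := exists_bound h𝓖 hw
    refine ⟨v, hv, ?_⟩
    filter_upwards [ae_all_iff.2 hw', mem_AE_iff.1 hpm] with x h1 h2 h3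
    obtain ⟨j, hj⟩ := mem_iUnion.1 (h2 h3)
    obtain ⟨N, hN⟩ := h1 j hj
    obtain ⟨N', hN'⟩ := hv' j
    exact ⟨max N N', fun n hn hxn => hN n ((le_max_left _ _).trans hn)
      fun h => hxn (hN' n ((le_max_right _ _).trans hn) h)⟩
  · rintro ⟨w, hw, hp⟩
    refine mem_fex_of (hat μ X) fun q hq => ⟨same_of fun _ _ _ => Iff.rfl, fun r hr => ?_⟩
    refine ⟨r, le_rfl, r, ⟨w, hw, X, hX, same_of fun _ _ _ => Iff.rfl, ?_⟩, le_rfl⟩
    have : ∀ᵐ x ∂μ, x ∈ r.1 → x ∈ p.1 := mem_AE_iff.1 (hr.trans hq)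
    filter_upwards [hp, this] with x h1 h2 h3 using h1 (h2 h3)

theorem infinite_of_small {𝓖 : Set Ω → Prop} {w : ℕ → Set Ω}
    (hw : Small μ 𝓖 w) : ∀ᵐ x ∂μ, ∀ N, ∃ n, N ≤ n ∧ x ∉ w n := by
  rw [ae_all_iff]
  intro N
  rw [ae_iff]
  have h1 : ∀ n, μ {a | ¬ ∃ n, N ≤ n ∧ a ∉ w n} ≤ μ (w (max N n)) := by
    intro n
    refine measure_mono fun x hx => ?_
    by_contra hcon
    exact hx ⟨_, le_max_left _ _, hcon⟩
  have h2 : Tendsto (fun n => μ (w (max N n))) atTop (𝓝 0) :=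
    hw.2.comp (tendsto_atTop_mono (fun n => le_max_right N n) tendsto_id)
  exact le_antisymm (ge_of_tendsto' h2 h1) bot_le

theorem isFilter_famB {𝓖 : Set Ω → Prop} (h𝓖 : IsClass 𝓖) (p : Cond μ) :
    p ∈ IsFilter (famB μ 𝓖) := by
  refine ⟨?_, ?_, ?_, ?_⟩
  · refine mem_fex_of (hat μ fun _ => univ) fun q _ => ?_
    rw [mem_famB h𝓖 fun _ => MeasurableSet.univ]
    exact ⟨_, small_empty h𝓖, ae_of_all _ fun x _ => ⟨0, fun n _ _ => mem_univ x⟩⟩
  · intro A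
    obtain ⟨X, hX, hA⟩ := exists_hat' A
    beta_reduce
    rw [mem_congr hA, inf_congr hA, mem_fimp_reg (reg_mem _ _).1 (reg_inf _)]
    intro q _ hq
    rw [mem_famB h𝓖 hX] at hq
    obtain ⟨w, hw, hq⟩ := hq
    rw [inf_hat hX, mem_AE_iff]
    filter_upwards [hq, infinite_of_small hw] with x h1 h2 h3 N
    obtain ⟨N', hN'⟩ := h1 h3
    obtain ⟨n, hn, hxn⟩ := h2 (max N N')
    exact ⟨n, (le_max_left _ _).trans hn, hN' n ((le_max_right _ _).trans hn) hxn⟩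
  · intro A B
    obtain ⟨X, hX, hA⟩ := exists_hat' A
    obtain ⟨Y, hY, hB⟩ := exists_hat' B
    beta_reduce
    rw [mem_congr hA, mem_congr hB, almostSub_congr hA hB,
      mem_fimp_reg (down_fand (reg_mem _ _).1 (reg_almostSub _ _).1) (reg_mem _ _)]
    rintro q _ ⟨hq, hq'⟩
    rw [mem_famB h𝓖 hX] at hq
    obtain ⟨w, hw, hq⟩ := hq
    rw [almostSub_hat hX hY, mem_AE_iff] at hq'
    rw [mem_famB h𝓖 hY]
    refine ⟨w, hw, ?_⟩
    filter_upwards [hq, hq'] with x h1 h2 h3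
    obtain ⟨N, hN⟩ := h1 h3
    obtain ⟨N', hN'⟩ := h2 h3
    exact ⟨max N N', fun n hn hxn => hN' n ((le_max_right _ _).trans hn)
      (hN n ((le_max_left _ _).trans hn) hxn)⟩
  · intro A B
    obtain ⟨X, hX, hA⟩ := exists_hat' A
    obtain ⟨Y, hY, hB⟩ := exists_hat' B
    simp only [mem_congr hA, mem_congr hB, sub_congr hA, sub_congr hB]
    rw [mem_fimp_reg (down_fand (reg_mem _ _).1 (reg_mem _ _).1) (reg_fex _)]
    rintro q _ ⟨hq, hq'⟩
    rw [mem_famB h𝓖 hX] at hq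
    obtain ⟨w, hw, hq⟩ := hq
    rw [mem_famB h𝓖 hY] at hq'
    obtain ⟨w', hw', hq'⟩ := hq'
    have hC : Meas fun n => X n ∩ Y n := fun n => (hX n).inter (hY n)
    refine (reg_fex _).2 _ fun r hr => ⟨r, le_rfl, mem_fex_of (hat μ fun n => X n ∩ Y n)
      fun t ht => ⟨?_, ?_, ?_⟩⟩
    · rw [mem_famB h𝓖 hC]
      refine ⟨_, small_union h𝓖 hw hw', ?_⟩
      have : ∀ᵐ x ∂μ, x ∈ t.1 → x ∈ q.1 := mem_AE_iff.1 (ht.trans hr)
      filter_upwards [hq, hq', this] with x h1 h2 h0 h3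
      obtain ⟨N, hN⟩ := h1 (h0 h3)
      obtain ⟨N', hN'⟩ := h2 (h0 h3)
      refine ⟨max N N', fun n hn hxn => ⟨hN n ((le_max_left _ _).trans hn) fun h => hxn (Or.inl h),
        hN' n ((le_max_right _ _).trans hn) fun h => hxn (Or.inr h)⟩⟩
    · rw [sub_hat hC hX, mem_AE_iff]
      exact ae_of_all _ fun x _ n h => h.1
    · rw [sub_hat hC hY, mem_AE_iff]
      exact ae_of_all _ fun x _ n h => h.2

theorem isP_famB {𝓖 : Set Ω → Prop} (h𝓖 : IsClass 𝓖) (p : Cond μ) :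
    p ∈ IsP (famB μ 𝓖) := by
  intro A
  choose X hX hA using fun n => exists_hat' (A n)
  rw [mem_fimp_reg (down_fall fun n => (reg_mem _ _).1) (reg_fex _)]
  intro q _ hq
  have h1 : ∀ n, ∃ w, Small μ 𝓖 w ∧
      ∀ᵐ x ∂μ, x ∈ q.1 → ∃ N, ∀ k, N ≤ k → x ∉ w k → x ∈ X n k := by
    intro n
    have := hq n
    beta_reduce at this
    rw [mem_congr (hA n), mem_famB h𝓖 (hX n)] at this
    exact this
  choose w hw hw' using h1
  obtain ⟨v, hv, hv'⟩ := exists_bound h𝓖 hw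
  have hvm : Meas fun n => (v n)ᶜ := fun n => (h𝓖.meas _ (hv.1 n)).compl
  refine mem_fex_of (hat μ fun n => (v n)ᶜ) fun r hr => ⟨?_, fun j => ?_⟩
  · rw [mem_famB h𝓖 hvm]
    exact ⟨v, hv, ae_of_all _ fun x _ => ⟨0, fun n _ h => h⟩⟩
  · beta_reduce
    rw [almostSub_congr (fun n => rfl) (hA j), almostSub_hat hvm (hX j), mem_AE_iff]
    have : ∀ᵐ x ∂μ, x ∈ r.1 → x ∈ q.1 := mem_AE_iff.1 hr
    filter_upwards [this, hw' j] with x h1 h2 h3
    obtain ⟨N, hN⟩ := h2 (h1 h3)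
    obtain ⟨N', hN'⟩ := hv' j
    exact ⟨max N N', fun n hn hxn => hN n ((le_max_left _ _).trans hn)
      fun h => hxn (hN' n ((le_max_right _ _).trans hn) h)⟩

theorem isNwd_famB {𝓖 : Set Ω → Prop} (h𝓖 : IsClass 𝓖)
    (htall : ∀ b : ℕ → Set Ω, (∀ n, MeasurableSet (b n)) →
      (∀ᵐ x ∂μ, ∀ N, ∃ n, N ≤ n ∧ x ∈ b n) →
        ∃ w : ℕ → Set Ω, Small μ 𝓖 w ∧ ∀ᵐ x ∂μ, ∀ N, ∃ n, N ≤ n ∧ x ∈ b n ∧ x ∈ w n)
    (p : Cond μ) : p ∈ IsNwd (famB μ 𝓖) := by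
  intro A
  obtain ⟨X, hX, hA⟩ := exists_hat' A
  beta_reduce
  rw [inf_congr hA, mem_fimp_reg (reg_inf _).1 (reg_fex _)]
  intro q _ hq
  rw [inf_hat hX, mem_AE_iff] at hq
  obtain ⟨w, hw, hw'⟩ := htall (fun n => X n ∪ q.1ᶜ) (fun n => (hX n).union q.2.1.compl) (by
    filter_upwards [hq] with x hx N
    by_cases h : x ∈ q.1
    · obtain ⟨n, hn, hxn⟩ := hx h N
      exact ⟨n, hn, Or.inl hxn⟩
    · exact ⟨N, le_rfl, Or.inr h⟩)
  have hwm : Meas w := fun n => h𝓖.meas _ (hw.1 n)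
  have hBm : Meas fun n => X n ∩ w n := fun n => (hX n).inter (hwm n)
  have hCm : Meas fun n => (w n)ᶜ := fun n => (hwm n).compl
  refine mem_fex_of (hat μ fun n => X n ∩ w n) fun r hr =>
    mem_fex_of (hat μ fun n => (w n)ᶜ) fun t ht => ⟨?_, ?_, ?_, ?_⟩
  · rw [inf_hat hBm, mem_AE_iff]
    have : ∀ᵐ x ∂μ, x ∈ t.1 → x ∈ q.1 := mem_AE_iff.1 (ht.trans hr)
    filter_upwards [this, hw'] with x h1 h2 h3 N
    obtain ⟨n, hn, hxn, hxn'⟩ := h2 N
    refine ⟨n, hn, ?_, hxn'⟩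
    rcases hxn with h | h
    · exact h
    · exact absurd (h1 h3) h
  · rw [sub_congr hA, sub_hat hBm hX, mem_AE_iff]
    exact ae_of_all _ fun x _ n h => h.1
  · rw [mem_famB h𝓖 hCm]
    exact ⟨w, hw, ae_of_all _ fun x _ => ⟨0, fun n _ h => h⟩⟩
  · rw [disj_hat hBm hCm, mem_AE_iff]
    exact ae_of_all _ fun x _ n h => h.2 h.1.2

/-- If the random set `e` is independent of the small set `w` and `e` has small weight, then `w`
and `e` are almost disjoint. -/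
theorem ae_finite_inter {𝓕 𝓖 : Set Ω → Prop}
    (hind : ∀ A B, 𝓕 A → 𝓖 B → μ (A ∩ B) = μ A * μ B) {w : ℕ → Set Ω} (hw : Small μ 𝓖 w)
    {e : ℕ → Set Ω} (he : ∀ n, 𝓕 (e n)) (hem : Meas e)
    (hwt : ∀ x, wt (fun n => μ (w n)) e x ≤ 1) :
    ∀ᵐ x ∂μ, ∃ N, ∀ n, N ≤ n → ¬ (x ∈ e n ∧ x ∈ w n) := by
  have h1 : ∀ n, μ (e n ∩ w n) = μ (e n) * μ (w n) := fun n =>
    hind _ _ (he n) (hw.1 n)
  have h2 : ∑' n, μ (e n ∩ w n) ≠ ⊤ := by
    have h3 : ∑' n, μ (e n ∩ w n) = ∫⁻ x, wt (fun n => μ (w n)) e x ∂μ := by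
      have h4 := lintegral_tsum (μ := μ) (f := fun k => (e k).indicator fun _ => μ (w k))
        fun k => (measurable_const.indicator (hem k)).aemeasurable
      unfold wt
      rw [h4]
      refine tsum_congr fun n => ?_
      rw [h1, lintegral_indicator (hem n), setLIntegral_const, mul_comm]
    rw [h3]
    refine ne_top_of_le_ne_top ?_ (lintegral_mono hwt)
    simp [measure_ne_top]
  have h3 := ae_eventually_notMem h2
  filter_upwards [h3] with x hx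
  obtain ⟨N, hN⟩ := eventually_atTop.1 hx
  exact ⟨N, fun n hn h => hN n hn h⟩

theorem incl_famB {𝓕 𝓖 : Set Ω → Prop} (h𝓖 : IsClass 𝓖)
    (hind : ∀ A B, 𝓕 A → 𝓖 B → μ (A ∩ B) = μ A * μ B) {U : FName (Cond μ)} {p : Cond μ}
    (hU : p ∈ IsUltra U) {E : (ℕ → ENNReal) → ℕ → Set Ω} (hE : ∀ m n, 𝓕 (E m n))
    (hEm : ∀ m, Meas (E m))
    (hE1 : ∀ m : ℕ → ENNReal, (∀ k, m k ≤ μ univ) → Tendsto m atTop (𝓝 0) →
      p ∈ Mem (hat μ (E m)) U ∧ ∀ x, wt m (E m) x ≤ 1) :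
    p ∈ Incl (famB μ 𝓖) U := by
  intro A
  obtain ⟨X, hX, hA⟩ := exists_hat' A
  beta_reduce
  rw [mem_congr hA, mem_congr hA, mem_fimp_reg (reg_mem _ _).1 (reg_mem _ _)]
  intro q hqp hq
  rw [mem_famB h𝓖 hX] at hq
  obtain ⟨w, hw, hq⟩ := hq
  obtain ⟨h1, h2⟩ := hE1 (fun n => μ (w n)) (fun n => measure_mono (subset_univ _)) hw.2
  have h3 := ae_finite_inter hind hw (hE _) (hEm _) h2
  have h4 : q ∈ AlmostSub (hat μ (E fun n => μ (w n))) (hat μ X) := by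
    rw [almostSub_hat (hEm _) hX, mem_AE_iff]
    filter_upwards [hq, h3] with x h5 h6 h7
    obtain ⟨N, hN⟩ := h5 h7
    obtain ⟨N', hN'⟩ := h6
    exact ⟨max N N', fun n hn hxn => hN n ((le_max_left _ _).trans hn)
      fun h => hN' n ((le_max_right _ _).trans hn) ⟨hxn, h⟩⟩
  have h5 := hU.1.2.2.1 (hat μ (E fun n => μ (w n))) (hat μ X)
  rw [mem_fimp_reg (down_fand (reg_mem _ _).1 (reg_almostSub _ _).1) (reg_mem _ _)] at h5
  exact h5 q hqp ⟨(reg_mem _ _).1 _ h1 _ hqp, h4⟩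

end Pool.Agent.TH773.PSet
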