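import Mathlib
import Pool.Agent.TH773.PSet.CaseB

/-!
# Summable ideals, and the main argument
-/

set_option autoImplicit false
set_option linter.unusedSectionVars false

namespace Pool.Agent.TH773.PSet

open MeasureTheory Set Filter Topology

universe u v

/-! ### Weights of sets of natural numbers -/

section Weights

/-- the weight of a set of natural numbers -/
noncomputable def W (m : ℕ → ENNReal) (D : Set ℕ) : ENNReal := ∑' k, D.indicator m k

theorem W_mono {m : ℕ → ENNReal} {D D' : Set ℕ} (h : D ⊆ D') : W m D ≤ W m D' :=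
  ENNReal.tsum_le_tsum fun k => indicator_le_indicator_of_subset h (fun _ => bot_le) k

theorem W_union {m : ℕ → ENNReal} {D D' : Set ℕ} : W m (D ∪ D') ≤ W m D + W m D' := by
  unfold W
  rw [← ENNReal.tsum_add]
  refine ENNReal.tsum_le_tsum fun k => ?_
  by_cases h : k ∈ D
  · simp [h]
  · by_cases h' : k ∈ D' <;> simp [h, h']

theorem W_Iio {m : ℕ → ENNReal} (hm : ∀ k, m k ≠ ⊤) (N : ℕ) : W m (Iio N) ≠ ⊤ := by
  unfold W
  rw [tsum_eq_sum (s := Finset.range N) (fun k hk => by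
    rw [indicator_of_notMem]
    simpa using hk)]
  refine ENNReal.sum_ne_top.2 fun k hk => ?_
  rw [indicator_of_mem (by simpa using hk)]
  exact hm k

theorem W_ne_top_of_almost {m : ℕ → ENNReal} (hm : ∀ k, m k ≠ ⊤) {D D' : Set ℕ}
    (h : W m D' ≠ ⊤) {N : ℕ} (hN : ∀ n, N ≤ n → n ∈ D → n ∈ D') : W m D ≠ ⊤ := by
  refine ne_top_of_le_ne_top (ENNReal.add_ne_top.2 ⟨W_Iio hm N, h⟩)
    ((W_mono fun n hn => ?_).trans W_union)
  by_cases h' : n < N
  · exact Or.inl h'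
  · exact Or.inr (hN n (not_lt.1 h') hn)

theorem W_tail {m : ℕ → ENNReal} {D : Set ℕ} (N : ℕ) :
    W m (D ∩ Ici N) = ∑' j, D.indicator m (j + N) := by
  have h1 : Summable fun n => (D ∩ Ici N).indicator m (n + N) := ENNReal.summable
  have h2 := h1.sum_add_tsum_nat_add'
  have h3 : ∑ i ∈ Finset.range N, (D ∩ Ici N).indicator m i = 0 := by
    refine Finset.sum_eq_zero fun k hk => ?_
    rw [indicator_of_notMem]
    intro h
    exact absurd h.2 (not_le.2 (Finset.mem_range.1 hk))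
  rw [h3, zero_add] at h2
  unfold W
  rw [← h2]
  refine tsum_congr fun j => ?_
  by_cases h : j + N ∈ D <;> simp [h]

theorem tendsto_W_tail {m : ℕ → ENNReal} {D : Set ℕ} (h : W m D ≠ ⊤) :
    Tendsto (fun N => W m (D ∩ Ici N)) atTop (𝓝 0) := by
  simp only [W_tail]
  exact ENNReal.tendsto_sum_nat_add _ h

theorem tsum_two : ∑' n : ℕ, (2 : ENNReal)⁻¹ ^ n ≠ ⊤ := by
  rw [ENNReal.tsum_geometric]
  simp

theorem two_pos (n : ℕ) : 0 < (2 : ENNReal)⁻¹ ^ n :=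
  pos_iff_ne_zero.2 (pow_ne_zero _ (ENNReal.inv_ne_zero.2 (by simp)))

theorem W_iUnion {m : ℕ → ENNReal} {D : ℕ → Set ℕ} (h : ∀ n, W m (D n) ≤ (2 : ENNReal)⁻¹ ^ n) :
    W m (⋃ n, D n) ≠ ⊤ := by
  refine ne_top_of_le_ne_top tsum_two (le_trans ?_ (ENNReal.tsum_le_tsum h))
  unfold W
  rw [ENNReal.tsum_comm]
  refine ENNReal.tsum_le_tsum fun k => ?_
  by_cases hk : k ∈ ⋃ n, D n
  · rw [indicator_of_mem hk]
    obtain ⟨n, hn⟩ := mem_iUnion.1 hk
    refine le_trans ?_ (ENNReal.le_tsum n)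
    rw [indicator_of_mem hn]
  · rw [indicator_of_notMem hk]
    exact bot_le

/-- pseudo-union for summable ideals -/
theorem pseudo {m : ℕ → ENNReal} {D : ℕ → Set ℕ} (h : ∀ n, W m (D n) ≠ ⊤) :
    W m {k | ∃ n, k ∈ D n ∧ W m (D n ∩ Ici k) ≤ (2 : ENNReal)⁻¹ ^ n} ≠ ⊤ ∧
      ∀ n, ∃ N, ∀ k, N ≤ k → k ∈ D n →
        k ∈ {k | ∃ n, k ∈ D n ∧ W m (D n ∩ Ici k) ≤ (2 : ENNReal)⁻¹ ^ n} := by
  classical
  constructor
  · have e : {k | ∃ n, k ∈ D n ∧ W m (D n ∩ Ici k) ≤ (2 : ENNReal)⁻¹ ^ n} =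
        ⋃ n, {k | k ∈ D n ∧ W m (D n ∩ Ici k) ≤ (2 : ENNReal)⁻¹ ^ n} := by
      ext k
      simp
    rw [e]
    refine W_iUnion fun n => ?_
    by_cases hex : ∃ k, W m (D n ∩ Ici k) ≤ (2 : ENNReal)⁻¹ ^ n
    · refine le_trans (W_mono fun k hk => ?_) (Nat.find_spec hex)
      exact ⟨hk.1, Nat.find_min' hex hk.2⟩
    · push Not at hex
      have : {k | k ∈ D n ∧ W m (D n ∩ Ici k) ≤ (2 : ENNReal)⁻¹ ^ n} = ∅ := by
        ext k
        simp only [mem_ofPred_eq, mem_empty_iff_false, iff_false, not_and, not_le]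
        exact fun _ => hex k
      rw [this]
      simp [W]
  · intro n
    have := (tendsto_W_tail (h n)).eventually (ge_mem_nhds (two_pos n))
    obtain ⟨N, hN⟩ := eventually_atTop.1 this
    exact ⟨N, fun k hk hkD => ⟨n, hkD, hN k hk⟩⟩

/-- tallness of summable ideals -/
theorem tall_W {m : ℕ → ENNReal} {a : ℕ → ℕ} (ha : ∀ n, n ≤ a n)
    (ham : ∀ n k, a n ≤ k → m k ≤ (2 : ENNReal)⁻¹ ^ n) (A : Set ℕ) (hA : ∀ N, ∃ n, N ≤ n ∧ n ∈ A) :
    W m {k | k ∈ A ∧ ∃ n, a n ≤ k ∧ ∀ j, a n ≤ j → j < k → j ∉ A} ≠ ⊤ ∧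
      ∀ N, ∃ k, N ≤ k ∧ k ∈ A ∧ ∃ n, a n ≤ k ∧ ∀ j, a n ≤ j → j < k → j ∉ A := by
  classical
  constructor
  · have e : {k | k ∈ A ∧ ∃ n, a n ≤ k ∧ ∀ j, a n ≤ j → j < k → j ∉ A} =
        ⋃ n, {k | k ∈ A ∧ a n ≤ k ∧ ∀ j, a n ≤ j → j < k → j ∉ A} := by
      ext k
      simp only [mem_iUnion, mem_ofPred_eq]
      exact ⟨fun ⟨h, n, h'⟩ => ⟨n, h, h'⟩, fun ⟨n, h, h'⟩ => ⟨h, n, h'⟩⟩
    rw [e]
    refine W_iUnion fun n => ?_
    obtain ⟨k0, hk0, hk0'⟩ : ∃ k0, (a n ≤ k0 ∧ k0 ∈ A) ∧ ∀ k, k < k0 → ¬ (a n ≤ k ∧ k ∈ A) :=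
      ⟨Nat.find (hA (a n)), Nat.find_spec (hA (a n)), fun k hk => Nat.find_min (hA (a n)) hk⟩
    unfold W
    rw [tsum_eq_single k0]
    · refine le_trans (indicator_le_self' (fun _ _ => bot_le) k0) (ham n k0 hk0.1)
    · intro k hk
      rw [indicator_of_notMem]
      rintro ⟨h1, h2, h3⟩
      rcases lt_or_gt_of_ne hk with h | h
      · exact hk0' k h ⟨h2, h1⟩
      · exact h3 k0 hk0.1 h hk0.2
  · intro N
    have hex := hA (a N)
    refine ⟨Nat.find hex, (ha N).trans (Nat.find_spec hex).1, (Nat.find_spec hex).2, N,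
      (Nat.find_spec hex).1, fun j hj hj' hjA => Nat.find_min hex hj' ⟨hj, hjA⟩⟩

theorem exists_seq {m : ℕ → ENNReal} (hm : Tendsto m atTop (𝓝 0)) :
    ∃ a : ℕ → ℕ, (∀ n, n ≤ a n) ∧ ∀ n k, a n ≤ k → m k ≤ (2 : ENNReal)⁻¹ ^ n := by
  have : ∀ n, ∃ N, n ≤ N ∧ ∀ k, N ≤ k → m k ≤ (2 : ENNReal)⁻¹ ^ n := by
    intro n
    obtain ⟨N, hN⟩ := eventually_atTop.1 (hm.eventually (ge_mem_nhds (two_pos n)))
    exact ⟨max n N, le_max_left _ _, fun k hk => hN k ((le_max_right _ _).trans hk)⟩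
  choose a ha ha' using this
  exact ⟨a, ha, ha'⟩

end Weights

variable {Ω : Type u} [m0 : MeasurableSpace Ω] {μ : Measure Ω}

theorem wt_eq (m : ℕ → ENNReal) (X : ℕ → Set Ω) (x : Ω) : wt m X x = W m {k | x ∈ X k} := by
  unfold wt W
  refine tsum_congr fun k => ?_
  by_cases h : x ∈ X k <;> simp [h]

theorem meas_and {E : Set Ω} (hE : MeasurableSet E) (Q : Prop) :
    MeasurableSet {x | x ∈ E ∧ Q} := by
  by_cases h : Q
  · have : {x | x ∈ E ∧ Q} = E := by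
      ext x
      exact ⟨fun h' => h'.1, fun h' => ⟨h', h⟩⟩
    rw [this]
    exact hE
  · have : {x | x ∈ E ∧ Q} = ∅ := by
      ext x
      exact ⟨fun h' => absurd h'.2 h, fun h' => absurd h' (notMem_empty x)⟩
    rw [this]
    exact MeasurableSet.empty

theorem Meas.compl {X : ℕ → Set Ω} (hX : Meas X) : Meas fun n => (X n)ᶜ := fun n => (hX n).compl

theorem measurableSet_wt {m : ℕ → ENNReal} {X : ℕ → Set Ω} (hX : Meas X) (c : ENNReal) :
    MeasurableSet {x | wt m X x ≤ c} := measurableSet_le (measurable_wt m hX) measurable_const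

theorem reg_AE {E : Set Ω} (hE : MeasurableSet E) : Reg (AE μ E) := by
  rw [← meets_AE hE]
  exact reg_meets _

variable (μ) in
/-- The name of the dual filter of a summable ideal. -/
def famA (m : ℕ → ENNReal) : FName (Cond μ) := fun B =>
  {p | ∃ X, Meas X ∧ p ∈ Same B (hat μ X) ∧ ∀ᵐ x ∂μ, x ∈ p.1 → wt m (fun n => (X n)ᶜ) x ≠ ⊤}

variable [IsFiniteMeasure μ]

theorem mem_famA {m : ℕ → ENNReal} {X : ℕ → Set Ω} (hX : Meas X) {p : Cond μ} :
    p ∈ Mem (hat μ X) (famA μ m) ↔ ∀ᵐ x ∂μ, x ∈ p.1 → wt m (fun n => (X n)ᶜ) x ≠ ⊤ := by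
  constructor
  · intro hp
    have hE : MeasurableSet {x | wt m (fun n => (X n)ᶜ) x ≠ ⊤} :=
      (measurable_wt m hX.compl) (measurableSet_singleton ⊤).compl
    refine mem_AE_iff.1 ((reg_AE hE).2 p fun q hq => ?_)
    obtain ⟨r, hr, B, h1, h2⟩ := mem_fex.1 hp q hq
    obtain ⟨t, ht, s, ⟨Y, hY, hs1, hs2⟩, hts⟩ := h2 r le_rfl
    refine ⟨t, ht.trans hr, mem_AE_iff.2 ?_⟩
    have h3 : t ∈ Same (hat μ X) (hat μ Y) :=
      same_trans ((reg_same _ _).1 _ h1 _ ht) ((reg_same _ _).1 _ hs1 _ hts)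
    have h5 : ∀ᵐ x ∂μ, x ∈ t.1 → x ∈ s.1 := mem_AE_iff.1 hts
    filter_upwards [hs2, ae_of_same hX hY h3, h5] with x h6 h7 h8 h9
    have e : {k | x ∈ (X k)ᶜ} = {k | x ∈ (Y k)ᶜ} := by
      ext k
      exact not_congr (h7 h9 k)
    have h10 := h6 (h8 h9)
    rw [wt_eq] at h10
    show wt m (fun n => (X n)ᶜ) x ≠ ⊤
    rw [wt_eq, e]
    exact h10
  · intro hp
    refine mem_fex_of (hat μ X) fun q hq => ⟨same_of fun _ _ _ => Iff.rfl, fun r hr => ?_⟩
    refine ⟨r, le_rfl, r, ⟨X, hX, same_of fun _ _ _ => Iff.rfl, ?_⟩, le_rfl⟩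
    have : ∀ᵐ x ∂μ, x ∈ r.1 → x ∈ p.1 := mem_AE_iff.1 (hr.trans hq)
    filter_upwards [hp, this] with x h1 h2 h3 using h1 (h2 h3)

theorem isFilter_famA {m : ℕ → ENNReal} (hm : ∀ k, m k ≠ ⊤) (hsum : W m univ = ⊤)
    (p : Cond μ) : p ∈ IsFilter (famA μ m) := by
  refine ⟨?_, ?_, ?_, ?_⟩
  · refine mem_fex_of (hat μ fun _ => univ) fun q _ => ?_
    rw [mem_famA fun _ => MeasurableSet.univ]
    refine ae_of_all _ fun x _ => ?_
    rw [wt_eq]
    simp [W]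
  · intro A
    obtain ⟨X, hX, hA⟩ := exists_hat' A
    beta_reduce
    rw [mem_congr hA, inf_congr hA, mem_fimp_reg (reg_mem _ _).1 (reg_inf _)]
    intro q _ hq
    rw [mem_famA hX] at hq
    rw [inf_hat hX, mem_AE_iff]
    filter_upwards [hq] with x h1 h2 N
    by_contra hcon
    push Not at hcon
    have h3 := h1 h2
    rw [wt_eq] at h3
    exact W_ne_top_of_almost (D := univ) hm h3 (N := N) (fun n hn _ => hcon n hn) hsum
  · intro A B
    obtain ⟨X, hX, hA⟩ := exists_hat' A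
    obtain ⟨Y, hY, hB⟩ := exists_hat' B
    beta_reduce
    rw [mem_congr hA, mem_congr hB, almostSub_congr hA hB,
      mem_fimp_reg (down_fand (reg_mem _ _).1 (reg_almostSub _ _).1) (reg_mem _ _)]
    rintro q _ ⟨hq, hq'⟩
    rw [mem_famA hX] at hq
    rw [almostSub_hat hX hY, mem_AE_iff] at hq'
    rw [mem_famA hY]
    filter_upwards [hq, hq'] with x h1 h2 h3
    obtain ⟨N, hN⟩ := h2 h3
    have h4 := h1 h3
    rw [wt_eq] at h4 ⊢
    exact W_ne_top_of_almost hm h4 (N := N) fun n hn hxn hxn' => hxn (hN n hn hxn')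
  · intro A B
    obtain ⟨X, hX, hA⟩ := exists_hat' A
    obtain ⟨Y, hY, hB⟩ := exists_hat' B
    simp only [mem_congr hA, mem_congr hB, sub_congr hA, sub_congr hB]
    rw [mem_fimp_reg (down_fand (reg_mem _ _).1 (reg_mem _ _).1) (reg_fex _)]
    rintro q _ ⟨hq, hq'⟩
    rw [mem_famA hX] at hq
    rw [mem_famA hY] at hq'
    have hC : Meas fun n => X n ∩ Y n := fun n => (hX n).inter (hY n)
    refine (reg_fex _).2 _ fun r hr => ⟨r, le_rfl, mem_fex_of (hat μ fun n => X n ∩ Y n)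
      fun t ht => ⟨?_, ?_, ?_⟩⟩
    · rw [mem_famA hC]
      have : ∀ᵐ x ∂μ, x ∈ t.1 → x ∈ q.1 := mem_AE_iff.1 (ht.trans hr)
      filter_upwards [hq, hq', this] with x h1 h2 h0 h3
      have h4 := h1 (h0 h3)
      have h5 := h2 (h0 h3)
      rw [wt_eq] at h4 h5 ⊢
      refine ne_top_of_le_ne_top (ENNReal.add_ne_top.2 ⟨h4, h5⟩)
        ((W_mono fun n hn => ?_).trans W_union)
      by_contra hcon
      simp only [mem_union, mem_ofPred_eq, mem_compl_iff, not_or, not_not] at hcon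
      exact hn hcon
    · rw [sub_hat hC hX, mem_AE_iff]
      exact ae_of_all _ fun x _ n h => h.1
    · rw [sub_hat hC hY, mem_AE_iff]
      exact ae_of_all _ fun x _ n h => h.2

theorem isP_famA {m : ℕ → ENNReal} (p : Cond μ) : p ∈ IsP (famA μ m) := by
  intro A
  choose X hX hA using fun n => exists_hat' (A n)
  rw [mem_fimp_reg (down_fall fun n => (reg_mem _ _).1) (reg_fex _)]
  intro q _ hq
  have h1 : ∀ n, ∀ᵐ x ∂μ, x ∈ q.1 → wt m (fun k => (X n k)ᶜ) x ≠ ⊤ := by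
    intro n
    have := hq n
    beta_reduce at this
    rw [mem_congr (hA n), mem_famA (hX n)] at this
    exact this
  let D : Ω → ℕ → Set ℕ := fun x n => {k | x ∈ (X n k)ᶜ}
  have hDm : ∀ n k, Measurable fun x => W m (D x n ∩ Ici k) := by
    intro n k
    have : (fun x => W m (D x n ∩ Ici k)) =
        wt m fun j => {x | x ∈ (X n j)ᶜ ∧ k ≤ j} := by
      ext x
      rw [wt_eq]
      rfl
    rw [this]
    exact measurable_wt m fun j => meas_and (hX n j).compl _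
  let Z : ℕ → Set Ω := fun k => {x | ∃ n, k ∈ D x n ∧ W m (D x n ∩ Ici k) ≤ (2 : ENNReal)⁻¹ ^ n}
  have hZ : Meas Z := by
    intro k
    have : Z k = ⋃ n, (X n k)ᶜ ∩ {x | W m (D x n ∩ Ici k) ≤ (2 : ENNReal)⁻¹ ^ n} := by
      ext x
      simp [Z, D]
    rw [this]
    exact MeasurableSet.iUnion fun n =>
      (hX n k).compl.inter (measurableSet_le (hDm n k) measurable_const)
  refine mem_fex_of (hat μ fun n => (Z n)ᶜ) fun r hr => ⟨?_, fun j => ?_⟩
  · rw [mem_famA hZ.compl]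
    have : ∀ᵐ x ∂μ, x ∈ r.1 → x ∈ q.1 := mem_AE_iff.1 hr
    filter_upwards [ae_all_iff.2 h1, this] with x h2 h3 h4
    rw [wt_eq]
    have h5 : ∀ n, W m (D x n) ≠ ⊤ := by
      intro n
      have := h2 n (h3 h4)
      rw [wt_eq] at this
      exact this
    have h6 := (pseudo h5).1
    have e : {k | x ∈ ((Z k)ᶜ)ᶜ} =
        {k | ∃ n, k ∈ D x n ∧ W m (D x n ∩ Ici k) ≤ (2 : ENNReal)⁻¹ ^ n} := by
      ext k
      simp only [compl_compl]
      rfl
    rw [e]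
    exact h6
  · beta_reduce
    rw [almostSub_congr (fun n => rfl) (hA j), almostSub_hat hZ.compl (hX j), mem_AE_iff]
    have : ∀ᵐ x ∂μ, x ∈ r.1 → x ∈ q.1 := mem_AE_iff.1 hr
    filter_upwards [ae_all_iff.2 h1, this] with x h2 h3 h4
    have h5 : ∀ n, W m (D x n) ≠ ⊤ := by
      intro n
      have := h2 n (h3 h4)
      rw [wt_eq] at this
      exact this
    obtain ⟨N, hN⟩ := (pseudo h5).2 j
    refine ⟨N, fun n hn hxn => ?_⟩
    by_contra hcon
    exact hxn (hN n hn hcon)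

theorem isNwd_famA {m : ℕ → ENNReal} (hm0 : Tendsto m atTop (𝓝 0)) (p : Cond μ) :
    p ∈ IsNwd (famA μ m) := by
  intro A
  obtain ⟨X, hX, hA⟩ := exists_hat' A
  beta_reduce
  rw [inf_congr hA, mem_fimp_reg (reg_inf _).1 (reg_fex _)]
  intro q _ hq
  rw [inf_hat hX, mem_AE_iff] at hq
  obtain ⟨a, ha, ham⟩ := exists_seq hm0
  let Y : ℕ → Set Ω := fun k =>
    {x | x ∈ X k ∧ ∃ n, a n ≤ k ∧ ∀ j, a n ≤ j → j < k → x ∉ X j}
  have hY : Meas Y := by
    intro k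
    have : Y k = X k ∩ ⋃ n, ⋃ (_ : a n ≤ k), ⋂ j, ⋂ (_ : a n ≤ j), ⋂ (_ : j < k), (X j)ᶜ := by
      ext x
      simp [Y]
    rw [this]
    exact (hX k).inter (MeasurableSet.iUnion fun n => MeasurableSet.iUnion fun _ =>
      MeasurableSet.iInter fun j => MeasurableSet.iInter fun _ => MeasurableSet.iInter fun _ =>
        (hX j).compl)
  refine mem_fex_of (hat μ Y) fun r hr => mem_fex_of (hat μ fun n => (Y n)ᶜ) fun t ht =>
    ⟨?_, ?_, ?_, ?_⟩
  · rw [inf_hat hY, mem_AE_iff]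
    have : ∀ᵐ x ∂μ, x ∈ t.1 → x ∈ q.1 := mem_AE_iff.1 (ht.trans hr)
    filter_upwards [this, hq] with x h1 h2 h3
    exact (tall_W ha ham {k | x ∈ X k} (h2 (h1 h3))).2
  · rw [sub_congr hA, sub_hat hY hX, mem_AE_iff]
    exact ae_of_all _ fun x _ n h => h.1
  · rw [mem_famA hY.compl]
    have : ∀ᵐ x ∂μ, x ∈ t.1 → x ∈ q.1 := mem_AE_iff.1 (ht.trans hr)
    filter_upwards [this, hq] with x h1 h2 h3
    have h4 := (tall_W ha ham {k | x ∈ X k} (h2 (h1 h3))).1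
    rw [wt_eq]
    simp only [compl_compl]
    exact h4
  · rw [disj_hat hY hY.compl, mem_AE_iff]
    exact ae_of_all _ fun x _ n h => h.2 h.1

/-- members of an ultrafilter name, changed on a finite set -/
theorem mem_of_almost {U : FName (Cond μ)} {p : Cond μ} (hU : p ∈ IsUltra U) {X Y : ℕ → Set Ω}
    (hX : Meas X) (hY : Meas Y) {q : Cond μ} (hq : q ≤ p) (h : q ∈ Mem (hat μ X) U)
    (h' : ∀ᵐ x ∂μ, x ∈ q.1 → ∃ N, ∀ n, N ≤ n → x ∈ X n → x ∈ Y n) : q ∈ Mem (hat μ Y) U := by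
  have h5 := hU.1.2.2.1 (hat μ X) (hat μ Y)
  rw [mem_fimp_reg (down_fand (reg_mem _ _).1 (reg_almostSub _ _).1) (reg_mem _ _)] at h5
  refine h5 q hq ⟨h, ?_⟩
  rw [almostSub_hat hX hY, mem_AE_iff]
  exact h'

/-- The random sets which are forced to belong to `U` and have weight at most `1`. -/
def Light (U : FName (Cond μ)) (m : ℕ → ENNReal) (X : ℕ → Set Ω) : Set (Cond μ) :=
  {s | s ∈ Mem (hat μ X) U ∧ ∀ᵐ x ∂μ, x ∈ s.1 → wt m X x ≤ 1}

theorem sum_eq_top {U : FName (Cond μ)} {m : ℕ → ENNReal} {q : Cond μ} (hU : q ∈ IsUltra U)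
    (hno : ∀ s ≤ q, ∀ X, Meas X → s ∉ Light U m X) : W m univ = ⊤ := by
  by_contra hne
  obtain ⟨N, hN⟩ := eventually_atTop.1
    ((tendsto_W_tail hne).eventually (ge_mem_nhds zero_lt_one))
  obtain ⟨r, hr, A, hA⟩ := mem_fex.1 hU.1.1 q le_rfl
  obtain ⟨X, hX, hAX⟩ := exists_hat' A
  rw [mem_congr hAX] at hA
  have hY : Meas fun n => {x : Ω | N ≤ n} := by
    intro n
    by_cases h : N ≤ n <;> simp [h]
  refine hno r hr _ hY ⟨mem_of_almost hU hX hY hr hA (ae_of_all _ fun x _ =>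
    ⟨N, fun n hn _ => hn⟩), ae_of_all _ fun x _ => ?_⟩
  rw [wt_eq]
  have := hN N le_rfl
  rwa [univ_inter] at this

theorem incl_famA {U : FName (Cond μ)} {m : ℕ → ENNReal} {q : Cond μ} (hU : q ∈ IsUltra U)
    (hno : ∀ s ≤ q, ∀ X, Meas X → s ∉ Light U m X) : q ∈ Incl (famA μ m) U := by
  intro A
  obtain ⟨X, hX, hA⟩ := exists_hat' A
  beta_reduce
  rw [mem_congr hA, mem_congr hA, mem_fimp_reg (reg_mem _ _).1 (reg_mem _ _)]
  intro q' hq' h
  rw [mem_famA hX] at h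
  refine (reg_mem _ _).2 _ fun s hs => ?_
  have hcov := hU.2 (hat μ X) (hat μ fun n => (X n)ᶜ)
  rw [mem_fimp_reg (reg_cover _ _).1 (reg_disj _ _)] at hcov
  have hs' := hcov s (hs.trans hq') (by
    rw [cover_hat hX hX.compl, mem_AE_iff]
    exact ae_of_all _ fun x _ n => em _)
  obtain ⟨t, ht, h1 | h1⟩ := mem_disj.1 hs' s le_rfl
  · exact ⟨t, ht, h1⟩
  · exfalso
    have hG : ∀ N : ℕ, MeasurableSet {x | W m ({k | x ∈ (X k)ᶜ} ∩ Ici N) ≤ 1} := by
      intro N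
      have : (fun x => W m ({k | x ∈ (X k)ᶜ} ∩ Ici N)) =
          wt m fun j => {x | x ∈ (X j)ᶜ ∧ N ≤ j} := by
        ext x
        rw [wt_eq]
        rfl
      have h2 : Measurable fun x => W m ({k | x ∈ (X k)ᶜ} ∩ Ici N) := by
        rw [this]
        exact measurable_wt m fun j => meas_and (hX j).compl _
      exact measurableSet_le h2 measurable_const
    have h2 : t ∈ AE μ (⋃ N : ℕ, {x | W m ({k | x ∈ (X k)ᶜ} ∩ Ici N) ≤ 1}) := by
      rw [mem_AE_iff]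
      have : ∀ᵐ x ∂μ, x ∈ t.1 → x ∈ q'.1 := mem_AE_iff.1 (ht.trans hs)
      filter_upwards [h, this] with x h3 h4 h5
      have h6 := h3 (h4 h5)
      rw [wt_eq] at h6
      obtain ⟨N, hN⟩ := eventually_atTop.1
        ((tendsto_W_tail h6).eventually (ge_mem_nhds zero_lt_one))
      exact mem_iUnion.2 ⟨N, hN N le_rfl⟩
    obtain ⟨N, hN⟩ := exists_pos h2
    have hY : Meas fun n => {x | x ∈ (X n)ᶜ ∧ N ≤ n} := fun n => meas_and (hX n).compl _
    have hle := restr_le t _ (hG N) hN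
    refine hno _ (hle.trans (ht.trans (hs.trans hq'))) _ hY ⟨?_, ?_⟩
    · refine mem_of_almost hU hX.compl hY (hle.trans (ht.trans (hs.trans hq')))
        ((reg_mem _ _).1 _ h1 _ hle) (ae_of_all _ fun x _ => ⟨N, fun n hn hx => ⟨hx, hn⟩⟩)
    · refine ae_of_all _ fun x hx => ?_
      rw [wt_eq]
      exact hx.2

variable (μ) in
/-- The property of the measure space which is used in the proof: for every family of continuum
many random sets there is a class of sets which is independent of it and rich enough. -/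
def Rich : Prop :=
  ∀ E : (ℕ → ENNReal) → ℕ → Set Ω, (∀ m, Meas (E m)) →
    ∃ 𝓕 𝓖 : Set Ω → Prop, IsClass 𝓖 ∧ (∀ m n, 𝓕 (E m n)) ∧
      (∀ A B, 𝓕 A → 𝓖 B → μ (A ∩ B) = μ A * μ B) ∧
      ∀ b : ℕ → Set Ω, (∀ n, MeasurableSet (b n)) →
        (∀ᵐ x ∂μ, ∀ N, ∃ n, N ≤ n ∧ x ∈ b n) →
          ∃ w : ℕ → Set Ω, Small μ 𝓖 w ∧ ∀ᵐ x ∂μ, ∀ N, ∃ n, N ≤ n ∧ x ∈ b n ∧ x ∈ w n

theorem covered_of_rich (hR : Rich μ) (p : Cond μ) : p ∈ Covered (Cond μ) := by
  classical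
  intro U
  rw [mem_fimp_reg (reg_isUltra U).1 (reg_fex _)]
  intro q _ hq
  refine mem_fex.2 fun q' hq' => ?_
  have hU : q' ∈ IsUltra U := (reg_isUltra U).1 _ hq _ hq'
  by_cases hA : ∃ m : ℕ → ENNReal, ((∀ k, m k ≤ μ univ) ∧ Tendsto m atTop (𝓝 0)) ∧
      ∃ r ≤ q', ∀ s ≤ r, ∀ X, Meas X → s ∉ Light U m X
  · obtain ⟨m, ⟨hm, hm0⟩, r, hr, hno⟩ := hA
    have hU' : r ∈ IsUltra U := (reg_isUltra U).1 _ hU _ hr
    have hm' : ∀ k, m k ≠ ⊤ := fun k => ne_top_of_le_ne_top (measure_ne_top _ _) (hm k)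
    exact ⟨r, hr, famA μ m, isFilter_famA hm' (sum_eq_top hU' hno) r, isP_famA r,
      isNwd_famA hm0 r, incl_famA hU' hno⟩
  · push Not at hA
    have hE : ∀ m : ℕ → ENNReal, ∃ E : ℕ → Set Ω, Meas E ∧
        ((∀ k, m k ≤ μ univ) → Tendsto m atTop (𝓝 0) →
          q' ∈ Mem (hat μ E) U ∧ ∀ x, wt m E x ≤ 1) := by
      intro m
      by_cases hm : (∀ k, m k ≤ μ univ) ∧ Tendsto m atTop (𝓝 0)
      · obtain ⟨X, hX, hX'⟩ := mix (Light U m) (fun X s hs t ht => by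
            refine ⟨(reg_mem _ _).1 _ hs.1 _ ht, ?_⟩
            have : ∀ᵐ x ∂μ, x ∈ t.1 → x ∈ s.1 := mem_AE_iff.1 ht
            filter_upwards [this, hs.2] with x h1 h2 h3 using h2 (h1 h3))
          (fun X Y hX hY r h hr => by
            refine ⟨mem_of_same (same_of_ae hX hY h) hr.1, ?_⟩
            filter_upwards [h, hr.2] with x h1 h2 h3
            have h4 := h2 h3
            rw [wt_eq] at h4 ⊢
            have e : {k | x ∈ Y k} = {k | x ∈ X k} := by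
              ext k
              exact (h1 h3 k).symm
            rw [e]
            exact h4) (q := q') (fun q'' hq'' => by
            obtain ⟨s, hs, X, hX, h⟩ := hA m hm q'' hq''
            exact ⟨s, hs, X, hX, h⟩)
        have hE : Meas fun n => X n ∩ {x | wt m X x ≤ 1} :=
          fun n => (hX n).inter (measurableSet_wt hX 1)
        refine ⟨fun n => X n ∩ {x | wt m X x ≤ 1}, hE, fun _ _ => ⟨?_, fun x => ?_⟩⟩
        · refine (reg_mem _ _).2 _ fun q'' hq'' => ?_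
          obtain ⟨s, hs, h⟩ := hX' q'' hq''
          refine ⟨s, hs, mem_of_same (same_of_ae hX hE ?_) h.1⟩
          filter_upwards [h.2] with x h1 h2 n
          exact ⟨fun h3 => ⟨h3, h1 h2⟩, fun h3 => h3.1⟩
        · by_cases hx : wt m X x ≤ 1
          · rw [wt_eq] at hx ⊢
            exact (W_mono fun k hk => hk.1).trans hx
          · rw [wt_eq]
            have e : {k | x ∈ X k ∩ {x | wt m X x ≤ 1}} = ∅ := by
              ext k
              simp [hx]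
            rw [e]
            simp [W]
      · exact ⟨fun _ => ∅, fun _ => MeasurableSet.empty, fun h h' => absurd ⟨h, h'⟩ hm⟩
    choose E hE hE' using hE
    obtain ⟨𝓕, 𝓖, h𝓖, hEF, hind, htall⟩ := hR E hE
    exact ⟨q', le_rfl, famB μ 𝓖, isFilter_famB h𝓖 q', isP_famB h𝓖 q',
      isNwd_famB h𝓖 htall q', incl_famB h𝓖 hind hU hEF hE hE'⟩

end Pool.Agent.TH773.PSet
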