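import Mathlib
import Pool.Agent.TH773.PSet.CaseA

/-!
# The product measure on `2 ^ (I × ω)` is rich if `I` is larger than the continuum
-/

set_option autoImplicit false
set_option linter.unusedSectionVars false

namespace Pool.Agent.TH773.PSet

open MeasureTheory Set Filter Topology ProbabilityTheory Cardinal

instance : IsProbabilityMeasure coin := by
  constructor
  unfold coin
  simp only [Measure.smul_apply, Measure.add_apply, measure_univ, smul_eq_mul]
  rw [one_add_one_eq_two]
  exact ENNReal.inv_mul_cancel (by simp) (by simp)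

theorem coin_true : coin {true} = (2 : ENNReal)⁻¹ := by
  unfold coin
  simp [Measure.smul_apply, Measure.add_apply]

variable {I : Type}

instance : IsProbabilityMeasure (coinProduct I) := by
  unfold coinProduct
  infer_instance

/-- the σ-algebra generated by the coordinates in `T` -/
@[reducible] def sig (T : Set (I × ℕ)) : MeasurableSpace (I × ℕ → Bool) :=
  ⨆ t ∈ T, MeasurableSpace.comap (fun x : I × ℕ → Bool => x t) inferInstance

/-- sets which depend on the coordinates in `T` only -/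
def Dep (T : Set (I × ℕ)) (A : Set (I × ℕ → Bool)) : Prop := MeasurableSet[sig T] A

theorem comap_le (t : I × ℕ) :
    MeasurableSpace.comap (fun x : I × ℕ → Bool => x t) inferInstance ≤ MeasurableSpace.pi :=
  (measurable_pi_apply t).comap_le

theorem sig_le (T : Set (I × ℕ)) : sig T ≤ MeasurableSpace.pi :=
  iSup₂_le fun t _ => comap_le t

theorem sig_mono {T T' : Set (I × ℕ)} (h : T ⊆ T') : sig T ≤ sig T' :=
  biSup_mono h

theorem Dep.mono {T T' : Set (I × ℕ)} (h : T ⊆ T') {A : Set (I × ℕ → Bool)} (hA : Dep T A) :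
    Dep T' A := sig_mono h A hA

theorem Dep.meas {T : Set (I × ℕ)} {A : Set (I × ℕ → Bool)} (hA : Dep T A) :
    MeasurableSet A := sig_le T A hA

theorem Dep.compl {T : Set (I × ℕ)} {A : Set (I × ℕ → Bool)} (hA : Dep T A) :
    Dep T Aᶜ := @MeasurableSet.compl _ _ (sig T) hA

theorem Dep.iUnion {T : Set (I × ℕ)} {ι : Sort*} [Countable ι] {A : ι → Set (I × ℕ → Bool)}
    (hA : ∀ n, Dep T (A n)) : Dep T (⋃ n, A n) :=
  @MeasurableSet.iUnion _ _ (sig T) _ _ hA

theorem Dep.iInter {T : Set (I × ℕ)} {ι : Sort*} [Countable ι] {A : ι → Set (I × ℕ → Bool)}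
    (hA : ∀ n, Dep T (A n)) : Dep T (⋂ n, A n) :=
  @MeasurableSet.iInter _ _ (sig T) _ _ hA

theorem Dep.inter {T : Set (I × ℕ)} {A B : Set (I × ℕ → Bool)} (hA : Dep T A) (hB : Dep T B) :
    Dep T (A ∩ B) := @MeasurableSet.inter _ (sig T) _ _ hA hB

theorem dep_univ (T : Set (I × ℕ)) : Dep T univ := @MeasurableSet.univ _ (sig T)

theorem dep_empty (T : Set (I × ℕ)) : Dep T ∅ := @MeasurableSet.empty _ (sig T)

theorem dep_coord {T : Set (I × ℕ)} {t : I × ℕ} (ht : t ∈ T) :
    Dep T {x : I × ℕ → Bool | x t = true} := by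
  have h1 : MeasurableSpace.comap (fun x : I × ℕ → Bool => x t) inferInstance ≤ sig T :=
    le_iSup₂_of_le t ht le_rfl
  exact h1 _ ⟨{true}, measurableSet_singleton true, rfl⟩

/-- every measurable set depends on countably many coordinates -/
theorem exists_countable {A : Set (I × ℕ → Bool)} (hA : MeasurableSet A) :
    ∃ T : Set (I × ℕ), T.Countable ∧ Dep T A := by
  let M : MeasurableSpace (I × ℕ → Bool) :=
    { MeasurableSet' := fun A => ∃ T : Set (I × ℕ), T.Countable ∧ Dep T A
      measurableSet_empty := ⟨∅, countable_empty, dep_empty _⟩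
      measurableSet_compl := fun A ⟨T, hT, hA⟩ => ⟨T, hT, hA.compl⟩
      measurableSet_iUnion := fun f hf => by
        choose T hT hT' using hf
        exact ⟨⋃ n, T n, countable_iUnion hT,
          Dep.iUnion fun n => (hT' n).mono (subset_iUnion T n)⟩ }
  have h1 : MeasurableSpace.pi ≤ M := by
    refine iSup_le fun t => ?_
    have h2 : MeasurableSpace.comap (fun x : I × ℕ → Bool => x t) inferInstance ≤
        sig ({t} : Set (I × ℕ)) := le_iSup₂_of_le t (mem_singleton t) le_rfl
    intro A hA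
    exact ⟨{t}, countable_singleton t, h2 A hA⟩
  exact h1 A hA

theorem dep_indep {S T : Set (I × ℕ)} (h : Disjoint S T) {A B : Set (I × ℕ → Bool)}
    (hA : Dep S A) (hB : Dep T B) :
    coinProduct I (A ∩ B) = coinProduct I A * coinProduct I B := by
  have h1 : iIndepFun (fun (t : I × ℕ) (x : I × ℕ → Bool) => x t) (coinProduct I) :=
    iIndepFun_infinitePi (P := fun _ : I × ℕ => coin) (X := fun _ b => b)
      fun _ => measurable_id
  have h2 := indep_iSup_of_disjoint (fun t => comap_le t) h1.iIndep h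
  exact (Indep_iff _ _ _).1 h2 A B hA hB

/-! ### Sparse random sets -/

/-- The event that the first `l` bits of the `k`-th block of the `i`-th random real are all
`true`. -/
def ev (i : I) (k l : ℕ) : Set (I × ℕ → Bool) := {x | ∀ j < l, x (i, Nat.pair k j) = true}

theorem dep_ev (i : I) (k l : ℕ) : Dep {t : I × ℕ | t.1 = i ∧ t.2.unpair.1 = k} (ev i k l) := by
  have : ev i k l = ⋂ j : ℕ, ⋂ (_ : j < l), {x : I × ℕ → Bool | x (i, Nat.pair k j) = true} := by
    ext x
    simp [ev]
  rw [this]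
  exact Dep.iInter fun j => Dep.iInter fun _ => dep_coord ⟨rfl, by simp⟩

theorem measure_ev (i : I) (k l : ℕ) : coinProduct I (ev i k l) = (2 : ENNReal)⁻¹ ^ l := by
  classical
  let s : Finset (I × ℕ) := (Finset.range l).image fun j => (i, Nat.pair k j)
  have hs : ev i k l = Set.pi s fun _ => {true} := by
    ext x
    simp [ev, s, Set.mem_pi]
  have hcard : s.card = l := by
    rw [Finset.card_image_of_injective, Finset.card_range]
    intro a b h
    have : Nat.pair k a = Nat.pair k b := congrArg Prod.snd h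
    exact (Nat.pair_eq_pair.1 this).2
  rw [hs, coinProduct, Measure.infinitePi_pi _ fun _ _ => measurableSet_singleton true,
    Finset.prod_const, coin_true, hcard]

theorem measure_forall_notMem (i : I) (l : ℕ) (S : Finset ℕ) :
    coinProduct I {x | ∀ k ∈ S, x ∉ ev i k l} = (1 - (2 : ENNReal)⁻¹ ^ l) ^ S.card := by
  classical
  have hdep : ∀ S : Finset ℕ, Dep {t : I × ℕ | t.1 = i ∧ t.2.unpair.1 ∈ S}
      {x | ∀ k ∈ S, x ∉ ev i k l} := by
    intro S
    have : {x | ∀ k ∈ S, x ∉ ev i k l} = ⋂ k : ℕ, ⋂ (_ : k ∈ S), (ev i k l)ᶜ := by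
      ext x
      simp
    rw [this]
    refine Dep.iInter fun k => Dep.iInter fun hk => (Dep.mono ?_ (dep_ev i k l)).compl
    rintro t ⟨h1, h2⟩
    exact ⟨h1, h2 ▸ hk⟩
  induction S using Finset.induction_on with
  | empty => simp
  | insert k S hk ih =>
    have e : {x | ∀ j ∈ insert k S, x ∉ ev i j l} =
        (ev i k l)ᶜ ∩ {x | ∀ j ∈ S, x ∉ ev i j l} := by
      ext x
      simp
    rw [e, dep_indep ?_ (dep_ev i k l).compl (hdep S), ih, Finset.card_insert_of_notMem hk,
      prob_compl_eq_one_sub (dep_ev i k l).meas, measure_ev, pow_succ, mul_comm]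
    rw [Set.disjoint_left]
    rintro t ⟨_, h1⟩ ⟨_, h2⟩
    exact hk (h1 ▸ h2)

/-- The number of `k` with `c ≤ k < M` and `x ∈ b k`. -/
noncomputable def cnt (b : ℕ → Set (I × ℕ → Bool)) (x : I × ℕ → Bool) (c M : ℕ) : ℕ :=
  open Classical in ((Finset.Ico c M).filter fun k => x ∈ b k).card

theorem cnt_mono (b : ℕ → Set (I × ℕ → Bool)) (x : I × ℕ → Bool) (c : ℕ) :
    Monotone (cnt b x c) := by
  classical
  intro M M' h
  unfold cnt
  exact Finset.card_le_card (Finset.filter_subset_filter _ (Finset.Ico_subset_Ico_right h))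

theorem dep_filter {b : ℕ → Set (I × ℕ → Bool)} {T : Set (I × ℕ)} (hb : ∀ n, Dep T (b n))
    (J S : Finset ℕ) : Dep T {x | (open Classical in J.filter fun k => x ∈ b k) = S} := by
  classical
  have : {x | (J.filter fun k => x ∈ b k) = S} =
      ⋂ k : ℕ, (if k ∈ J ∧ k ∈ S then b k else if k ∈ J then (b k)ᶜ else
        if k ∈ S then ∅ else univ) := by
    ext x
    simp only [mem_ofPred_eq, mem_iInter, Finset.ext_iff, Finset.mem_filter]
    refine forall_congr' fun k => ?_
    by_cases h1 : k ∈ J <;> by_cases h2 : k ∈ S <;> simp [h1, h2]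
  rw [this]
  refine Dep.iInter fun k => ?_
  split_ifs
  · exact hb k
  · exact (hb k).compl
  · exact dep_empty T
  · exact dep_univ T

theorem measurableSet_cnt {b : ℕ → Set (I × ℕ → Bool)} {T : Set (I × ℕ)} (hb : ∀ n, Dep T (b n))
    (c M N : ℕ) : Dep T {x | cnt b x c M < N} := by
  classical
  have : {x | cnt b x c M < N} = ⋃ S : Finset ℕ, ⋃ (_ : S.card < N),
      {x | ((Finset.Ico c M).filter fun k => x ∈ b k) = S} := by
    ext x
    simp only [mem_ofPred_eq, mem_iUnion, exists_prop]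
    constructor
    · intro h
      exact ⟨_, h, rfl⟩
    · rintro ⟨S, h, rfl⟩
      exact h
  rw [this]
  exact Dep.iUnion fun S => Dep.iUnion fun _ => dep_filter hb _ S

theorem cnt_unbounded {b : ℕ → Set (I × ℕ → Bool)} {x : I × ℕ → Bool}
    (hx : ∀ N, ∃ n, N ≤ n ∧ x ∈ b n) (c N : ℕ) : ∃ M, N ≤ cnt b x c M := by
  classical
  induction N with
  | zero => exact ⟨0, Nat.zero_le _⟩
  | succ N ih =>
    obtain ⟨M, hM⟩ := ih
    obtain ⟨n, hn, hxn⟩ := hx (max c M)
    refine ⟨n + 1, ?_⟩
    have h1 : insert n ((Finset.Ico c M).filter fun k => x ∈ b k) ⊆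
        (Finset.Ico c (n + 1)).filter fun k => x ∈ b k := by
      intro k hk
      rcases Finset.mem_insert.1 hk with rfl | hk
      · exact Finset.mem_filter.2 ⟨Finset.mem_Ico.2 ⟨(le_max_left _ _).trans hn,
          Nat.lt_succ_self _⟩, hxn⟩
      · obtain ⟨h2, h3⟩ := Finset.mem_filter.1 hk
        rw [Finset.mem_Ico] at h2
        have := (le_max_right c M).trans hn
        exact Finset.mem_filter.2 ⟨Finset.mem_Ico.2 ⟨h2.1, by omega⟩, h3⟩
    have h2 : n ∉ (Finset.Ico c M).filter fun k => x ∈ b k := by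
      intro h
      have h3 := (Finset.mem_Ico.1 (Finset.mem_filter.1 h).1).2
      have := (le_max_right c M).trans hn
      omega
    have h3 := Finset.card_le_card h1
    rw [Finset.card_insert_of_notMem h2] at h3
    unfold cnt at hM ⊢
    omega

theorem exists_long {b : ℕ → Set (I × ℕ → Bool)} {T : Set (I × ℕ)} (hb : ∀ n, Dep T (b n))
    (hinf : ∀ᵐ x ∂(coinProduct I), ∀ N, ∃ n, N ≤ n ∧ x ∈ b n) (c N : ℕ) {ε : ENNReal}
    (hε : 0 < ε) : ∃ M, c < M ∧ coinProduct I {x | cnt b x c M < N} ≤ ε := by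
  have h1 : coinProduct I (⋂ M, {x | cnt b x c M < N}) = 0 := by
    refine measure_eq_zero_iff_ae_notMem.2 ?_
    filter_upwards [hinf] with x hx hx'
    obtain ⟨M, hM⟩ := cnt_unbounded hx c N
    exact absurd (mem_iInter.1 hx' M) (not_lt.2 hM)
  have h2 : Tendsto (coinProduct I ∘ fun M => {x | cnt b x c M < N}) atTop (𝓝 0) := by
    rw [← h1]
    refine tendsto_measure_iInter_atTop
      (fun M => (measurableSet_cnt hb c M N).meas.nullMeasurableSet) ?_ ⟨0, measure_ne_top _ _⟩
    intro M M' h x hx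
    exact lt_of_le_of_lt (cnt_mono b x c h) hx
  obtain ⟨M, hM⟩ := eventually_atTop.1 (h2.eventually (ge_mem_nhds hε))
  exact ⟨max M (c + 1), lt_of_lt_of_le (Nat.lt_succ_self c) (le_max_right _ _),
    hM _ (le_max_left _ _)⟩

theorem exists_pow (n : ℕ) : ∃ N, (1 - (2 : ENNReal)⁻¹ ^ n) ^ N ≤ (2 : ENNReal)⁻¹ ^ n := by
  have h1 : (1 - (2 : ENNReal)⁻¹ ^ n) < 1 :=
    ENNReal.sub_lt_self (by simp) (by simp) (two_pos n).ne'
  have h2 := ENNReal.tendsto_pow_atTop_nhds_zero_of_lt_one h1
  obtain ⟨N, hN⟩ := eventually_atTop.1 (h2.eventually (ge_mem_nhds (two_pos n)))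
  exact ⟨N, hN N le_rfl⟩

/-- If the random infinite set `b` does not depend on the random real with index `i`, then some
sparse random set which depends on the random real with index `i` only has an infinite
intersection with `b`. -/
theorem exists_sparse {b : ℕ → Set (I × ℕ → Bool)} {T : Set (I × ℕ)} (hb : ∀ n, Dep T (b n))
    (hinf : ∀ᵐ x ∂(coinProduct I), ∀ N, ∃ n, N ≤ n ∧ x ∈ b n) (i : I)
    (hi : ∀ t ∈ T, t.1 ≠ i) :
    ∃ w : ℕ → Set (I × ℕ → Bool), (∀ n, Dep {t : I × ℕ | t.1 = i} (w n)) ∧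
      Tendsto (fun n => coinProduct I (w n)) atTop (𝓝 0) ∧
        ∀ᵐ x ∂(coinProduct I), ∀ N, ∃ n, N ≤ n ∧ x ∈ b n ∧ x ∈ w n := by
  classical
  choose N hN using exists_pow
  choose M hM hM' using fun c n : ℕ => exists_long hb hinf c (N n) (two_pos n)
  obtain ⟨a, ha1⟩ : ∃ a : ℕ → ℕ, ∀ n, a (n + 1) = M (a n) n :=
    ⟨fun n => Nat.rec 0 (fun n c => M c n) n, fun n => rfl⟩
  have hmono : StrictMono a := strictMono_nat_of_lt_succ fun n => by
    rw [ha1]
    exact hM _ _
  have hge : ∀ n, n ≤ a n := fun n => hmono.le_apply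
  let len : ℕ → ℕ := fun k => Nat.findGreatest (fun n => a n ≤ k) k
  have hlen : ∀ n k, a n ≤ k → k < a (n + 1) → len k = n := by
    intro n k h1 h2
    refine (Nat.findGreatest_eq_iff).2 ⟨(hge n).trans h1, fun _ => h1, fun j hj _ hj' => ?_⟩
    have : a (n + 1) ≤ a j := hmono.monotone hj
    omega
  have hlen' : ∀ n k, a n ≤ k → n ≤ len k := by
    intro n k h
    exact Nat.le_findGreatest (P := fun n => a n ≤ k) ((hge n).trans h) h
  have hlent : Tendsto len atTop atTop :=
    tendsto_atTop.2 fun n => eventually_atTop.2 ⟨a n, fun k hk => hlen' n k hk⟩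
  refine ⟨fun k => ev i k (len k), fun k => ?_, ?_, ?_⟩
  · exact (dep_ev i k (len k)).mono fun t ht => ht.1
  · simp only [measure_ev]
    have h2 := ENNReal.tendsto_pow_atTop_nhds_zero_of_lt_one
      (r := (2 : ENNReal)⁻¹) (ENNReal.inv_lt_one.2 (by norm_num))
    exact h2.comp hlent
  · let A : ℕ → Set (I × ℕ → Bool) := fun n =>
      {x | ∀ k, a n ≤ k → k < a (n + 1) → ¬ (x ∈ b k ∧ x ∈ ev i k n)}
    have hA : ∀ n, coinProduct I (A n) ≤ 2 * (2 : ENNReal)⁻¹ ^ n := by
      intro n
      let J := Finset.Ico (a n) (a (n + 1))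
      let Q : Finset ℕ → Set (I × ℕ → Bool) := fun S => {x | (J.filter fun k => x ∈ b k) = S}
      let R : Finset ℕ → Set (I × ℕ → Bool) := fun S => {x | ∀ k ∈ S, x ∉ ev i k n}
      have hQd : ∀ S, Dep T (Q S) := fun S => dep_filter hb J S
      have hRd : ∀ S, Dep {t : I × ℕ | t.1 = i} (R S) := by
        intro S
        have : R S = ⋂ k : ℕ, ⋂ (_ : k ∈ S), (ev i k n)ᶜ := by
          ext x
          simp [R]
        rw [this]
        exact Dep.iInter fun k => Dep.iInter fun hk =>
          ((dep_ev i k n).mono fun t ht => ht.1).compl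
      have hdisj : Disjoint T {t : I × ℕ | t.1 = i} :=
        Set.disjoint_left.2 fun t h1 h2 => hi t h1 h2
      have hcov : A n ⊆ {x | cnt b x (a n) (a (n + 1)) < N n} ∪
          ⋃ S ∈ J.powerset.filter (fun S => N n ≤ S.card), Q S ∩ R S := by
        intro x hx
        by_cases h : cnt b x (a n) (a (n + 1)) < N n
        · exact Or.inl h
        · refine Or.inr (mem_iUnion₂.2 ⟨J.filter fun k => x ∈ b k, ?_, rfl, ?_⟩)
          · exact Finset.mem_filter.2 ⟨Finset.mem_powerset.2 (Finset.filter_subset _ _),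
              not_lt.1 h⟩
          · intro k hk
            obtain ⟨h1, h2⟩ := Finset.mem_filter.1 hk
            rw [Finset.mem_Ico] at h1
            exact fun h3 => hx k h1.1 h1.2 ⟨h2, h3⟩
      have hsum : ∑ S ∈ J.powerset.filter (fun S => N n ≤ S.card), coinProduct I (Q S ∩ R S) ≤
          (2 : ENNReal)⁻¹ ^ n := by
        have h1 : ∀ S ∈ J.powerset.filter (fun S => N n ≤ S.card),
            coinProduct I (Q S ∩ R S) ≤ coinProduct I (Q S) * (2 : ENNReal)⁻¹ ^ n := by
          intro S hS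
          rw [dep_indep hdisj (hQd S) (hRd S)]
          refine mul_le_mul_right ?_ _
          show coinProduct I {x | ∀ k ∈ S, x ∉ ev i k n} ≤ _
          rw [measure_forall_notMem]
          refine le_trans ?_ (hN n)
          exact pow_le_pow_right_of_le_one' tsub_le_self (Finset.mem_filter.1 hS).2
        refine (Finset.sum_le_sum h1).trans ?_
        rw [← Finset.sum_mul]
        have h2 : ∑ S ∈ J.powerset.filter (fun S => N n ≤ S.card), coinProduct I (Q S) ≤ 1 := by
          rw [← measure_biUnion_finset ?_ fun S _ => (hQd S).meas]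
          · exact prob_le_one
          · intro S _ S' _ hne
            refine Set.disjoint_left.2 fun x h3 h4 => hne ?_
            rw [← h3, ← h4]
        calc _ ≤ 1 * (2 : ENNReal)⁻¹ ^ n := mul_le_mul_left h2 _
          _ = _ := one_mul _
      calc coinProduct I (A n) ≤ _ := measure_mono hcov
        _ ≤ coinProduct I {x | cnt b x (a n) (a (n + 1)) < N n} +
            coinProduct I (⋃ S ∈ J.powerset.filter (fun S => N n ≤ S.card), Q S ∩ R S) :=
          measure_union_le _ _
        _ ≤ (2 : ENNReal)⁻¹ ^ n + (2 : ENNReal)⁻¹ ^ n := by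
          refine add_le_add ?_ ((measure_biUnion_finset_le _ _).trans hsum)
          rw [ha1]
          exact hM' (a n) n
        _ = 2 * (2 : ENNReal)⁻¹ ^ n := (two_mul _).symm
    have hAs : ∑' n, coinProduct I (A n) ≠ ⊤ := by
      refine ne_top_of_le_ne_top ?_ (ENNReal.tsum_le_tsum hA)
      rw [ENNReal.tsum_mul_left]
      exact ENNReal.mul_ne_top (by simp) tsum_two
    filter_upwards [ae_eventually_notMem hAs] with x hx K
    obtain ⟨n0, hn0⟩ := eventually_atTop.1 hx
    have h1 := hn0 (max n0 K) (le_max_left _ _)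
    simp only [A, mem_ofPred_eq, not_forall, not_not] at h1
    obtain ⟨k, hk1, hk2, hk3, hk4⟩ := h1
    refine ⟨k, ((le_max_right n0 K).trans (hge _)).trans hk1, hk3, ?_⟩
    rw [hlen _ k hk1 hk2]
    exact hk4

theorem mk_ennreal_le : #ENNReal ≤ 𝔠 := by
  have h1 : #ENNReal = #NNReal + 1 := by
    show #(Option NNReal) = _
    exact mk_option
  have h2 : #NNReal ≤ 𝔠 := by
    rw [← mk_real]
    exact mk_subtype_le _
  rw [h1]
  calc #NNReal + 1 ≤ 𝔠 + 𝔠 := add_le_add h2 (one_le_aleph0.trans aleph0_le_continuum)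
    _ = 𝔠 := continuum_add_self

theorem mk_fun_le : #(ℕ → ENNReal) ≤ 𝔠 := by
  rw [mk_arrow, mk_nat, lift_aleph0, lift_id]
  calc #ENNReal ^ ℵ₀ ≤ 𝔠 ^ ℵ₀ := Cardinal.power_le_power_right mk_ennreal_le
    _ = 𝔠 := continuum_power_aleph0

theorem rich_coinProduct (hI : 𝔠 < #I) : Rich (coinProduct I) := by
  intro E hE
  choose T hT hT' using fun m n => exists_countable (hE m n)
  let Z : Set (I × ℕ) := ⋃ p : (ℕ → ENNReal) × ℕ, T p.1 p.2
  have hZ : #Z ≤ 𝔠 := by
    refine (mk_iUnion_le_sum_mk).trans ?_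
    refine (sum_le_sum (fun p : (ℕ → ENNReal) × ℕ => #(T p.1 p.2)) (fun _ => ℵ₀)
      fun p => (hT p.1 p.2).le_aleph0).trans ?_
    rw [sum_const', mk_prod, lift_id, lift_id, mk_nat]
    calc #(ℕ → ENNReal) * ℵ₀ * ℵ₀ ≤ 𝔠 * ℵ₀ * ℵ₀ :=
          mul_le_mul_left (mul_le_mul_left mk_fun_le _) _
      _ = 𝔠 := by simp
  let Zi : Set I := Prod.fst '' Z
  have hZi : #Zi ≤ 𝔠 := mk_image_le.trans hZ
  let ZZ : Set (I × ℕ) := {t | t.1 ∈ Zi}
  have hcl : IsClass (Dep ZZᶜ) :=
    { empty := dep_empty _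
      iUnion := fun f hf => Dep.iUnion hf
      meas := fun A hA => hA.meas }
  refine ⟨Dep ZZ, Dep ZZᶜ, hcl, ?_,
    fun A B hA hB => dep_indep disjoint_compl_right hA hB, ?_⟩
  · intro m n
    have h1 : T m n ⊆ ZZ := fun t ht =>
      (⟨t, mem_iUnion.2 ⟨(m, n), ht⟩, rfl⟩ : t.1 ∈ Prod.fst '' Z)
    exact (hT' m n).mono h1
  · intro b hb hinf
    choose S hS hS' using fun n => exists_countable (hb n)
    let B : Set (I × ℕ) := ⋃ n, S n
    have hB : B.Countable := countable_iUnion hS
    have hbd : ∀ n, Dep B (b n) := fun n => (hS' n).mono (subset_iUnion S n)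
    obtain ⟨i, hi⟩ : ∃ i, i ∉ Zi ∪ Prod.fst '' B := by
      by_contra hcon
      push Not at hcon
      have h1 : #I ≤ #(Zi ∪ Prod.fst '' B : Set I) := by
        rw [eq_univ_of_forall hcon, mk_univ]
      have h2 : #(Zi ∪ Prod.fst '' B : Set I) ≤ 𝔠 := by
        refine (mk_union_le _ _).trans ?_
        calc #Zi + #(Prod.fst '' B : Set I) ≤ 𝔠 + 𝔠 :=
              add_le_add hZi ((hB.image _).le_aleph0.trans aleph0_le_continuum)
          _ = 𝔠 := continuum_add_self
      exact absurd (h1.trans h2) (not_le.2 hI)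
    have hi1 : i ∉ Zi := fun h => hi (Or.inl h)
    have hi2 : ∀ t ∈ B, t.1 ≠ i := fun t ht h => hi (Or.inr ⟨t, ht, h⟩)
    obtain ⟨w, hw1, hw2, hw3⟩ := exists_sparse hbd hinf i hi2
    refine ⟨w, ⟨fun n => (hw1 n).mono ?_, hw2⟩, hw3⟩
    intro t ht
    show t.1 ∉ Zi
    rw [show t.1 = i from ht]
    exact hi1

/-- Random forcing for more than continuum many random reals forces that `ω*` can be covered by
nowhere dense P-sets. -/
theorem covered_random (hI : 𝔠 < #I) (p : Random I) : p ∈ Covered (Random I) :=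
  covered_of_rich (rich_coinProduct hI) p

end Pool.Agent.TH773.PSet
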